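import Mathlib

/-!
# Abelian groups with finite 2-torsion
-/

set_option autoImplicit false

namespace Pool.Agent.TH841.SH

variable {G : Type} [AddCommGroup G]

lemma card_tor (hG : Finite {x : G // x + x = 0}) (k : ℕ) :
    Finite {x : G // 2 ^ k • x = 0} ∧
      Nat.card {x : G // 2 ^ k • x = 0} ≤ Nat.card {x : G // x + x = 0} ^ k := by
  classical
  induction k with
  | zero =>
    have h1 : Subsingleton {x : G // 2 ^ 0 • x = 0} := by
      constructor
      rintro ⟨x, hx⟩ ⟨y, hy⟩
      rw [pow_zero, one_smul] at hx hy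
      exact Subtype.ext (hx.trans hy.symm)
    refine ⟨inferInstance, ?_⟩
    rw [pow_zero]
    exact Finite.card_le_one_iff_subsingleton.2 h1
  | succ k ih =>
    obtain ⟨h1, h2⟩ := ih
    let s : G → G := fun y => if h : ∃ x, x + x = y then h.choose else 0
    have hs : ∀ x : G, s (x + x) + s (x + x) = x + x := by
      intro x
      have h : ∃ z, z + z = x + x := ⟨x, rfl⟩
      simp only [s]
      rw [dif_pos h]
      exact h.choose_spec
    let φ : {x : G // 2 ^ (k + 1) • x = 0} → {x : G // 2 ^ k • x = 0} × {x : G // x + x = 0} :=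
      fun x => (⟨x.1 + x.1, by
        have e : ∀ z : G, 2 ^ k • (z + z) = 2 ^ (k + 1) • z := fun z => by
          rw [pow_succ, mul_smul, two_smul]
        rw [e]
        exact x.2⟩, ⟨x.1 - s (x.1 + x.1), by
        have e : x.1 - s (x.1 + x.1) + (x.1 - s (x.1 + x.1)) =
          (x.1 + x.1) - (s (x.1 + x.1) + s (x.1 + x.1)) := by abel
        rw [e, hs, sub_self]⟩)
    have hφ : Function.Injective φ := by
      intro x y hxy
      simp only [φ, Prod.mk.injEq, Subtype.mk.injEq] at hxy
      obtain ⟨h3, h4⟩ := hxy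
      rw [h3] at h4
      exact Subtype.ext (sub_left_injective h4)
    have := Finite.of_injective φ hφ
    refine ⟨this, (Nat.card_le_card_of_injective φ hφ).trans ?_⟩
    rw [Nat.card_prod, pow_succ]
    exact Nat.mul_le_mul_right _ h2

/-- the group `ℚ₂ / ℤ₂` -/
abbrev Pruf : Type := ℚ_[2] ⧸ (PadicInt.subring 2).toAddSubgroup

lemma pruf_two : ∃ z : Pruf, z ≠ 0 ∧ z + z = 0 := by
  refine ⟨QuotientAddGroup.mk (1 / 2), ?_, ?_⟩
  · rw [Ne, QuotientAddGroup.eq_zero_iff]
    intro h
    have h1 : ‖(1 / 2 : ℚ_[2])‖ ≤ 1 := h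
    have h2 : ‖(2 : ℚ_[2])‖ = 2⁻¹ := by
      have := Padic.norm_p (p := 2)
      exact_mod_cast this
    rw [norm_div, norm_one, h2] at h1
    norm_num at h1
  · rw [← QuotientAddGroup.mk_add, QuotientAddGroup.eq_zero_iff]
    have : (1 / 2 : ℚ_[2]) + 1 / 2 = 1 := by norm_num
    rw [this]
    show ‖(1 : ℚ_[2])‖ ≤ 1
    rw [norm_one]

lemma card_pruf (hG : Finite {x : G // x + x = 0}) (δ : ℕ) (f : (Fin δ → Pruf) →+ G)
    (hf : Function.Injective f) : 2 ^ δ ≤ Nat.card {x : G // x + x = 0} := by
  classical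
  obtain ⟨z, hz, hz2⟩ := pruf_two
  have e1 : 2 ^ δ = Nat.card (Fin δ → Bool) := by simp
  rw [e1]
  refine Nat.card_le_card_of_injective (fun v : Fin δ → Bool =>
    (⟨f (fun i => if v i then z else 0), ?_⟩ : {x : G // x + x = 0})) ?_
  · rw [← map_add]
    have : ((fun i => if v i then z else 0) + (fun i => if v i then z else 0) : Fin δ → Pruf) = 0 := by
      funext i
      show (if v i then z else 0) + (if v i then z else 0) = 0
      split_ifs
      · exact hz2
      · exact add_zero 0
    rw [this, map_zero]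
  · intro v w hvw
    have h1 := hf (congrArg Subtype.val hvw)
    funext i
    have h2 : (if v i then z else 0) = (if w i then z else 0) := congrFun h1 i
    cases hv : v i <;> cases hw : w i <;> simp_all

end Pool.Agent.TH841.SH
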