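import Mathlib

/-!
# Curves with full 2-torsion over a field: duplication and translation by the points of order two
-/

set_option autoImplicit false

namespace Pool.Agent.TH841.SH

open WeierstrassCurve

section

variable {K : Type*} [Field K]

/-- the curve `y² = (x - a) (x - b) (x - c)` -/
structure IsR (W : WeierstrassCurve K) (a b c : K) : Prop where
  h1 : W.a₁ = 0
  h2 : W.a₂ = -(a + b + c)
  h3 : W.a₃ = 0
  h4 : W.a₄ = a * b + a * c + b * c
  h6 : W.a₆ = -(a * b * c)

variable {W : WeierstrassCurve K} {a b c : K}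

lemma IsR.swap (h : IsR W a b c) : IsR W b a c :=
  ⟨h.h1, by rw [h.h2]; ring, h.h3, by rw [h.h4]; ring, by rw [h.h6]; ring⟩

lemma IsR.rot (h : IsR W a b c) : IsR W b c a :=
  ⟨h.h1, by rw [h.h2]; ring, h.h3, by rw [h.h4]; ring, by rw [h.h6]; ring⟩

lemma IsR.eqn (h : IsR W a b c) (x y : K) :
    W.toAffine.Equation x y ↔ y ^ 2 = (x - a) * (x - b) * (x - c) := by
  rw [Affine.equation_iff]
  show y ^ 2 + W.a₁ * x * y + W.a₃ * y = x ^ 3 + W.a₂ * x ^ 2 + W.a₄ * x + W.a₆ ↔ _
  rw [h.h1, h.h2, h.h3, h.h4, h.h6]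
  constructor
  · intro h; linear_combination h
  · intro h; linear_combination h

lemma IsR.negY (h : IsR W a b c) (x y : K) : W.toAffine.negY x y = -y := by
  show -y - W.a₁ * x - W.a₃ = -y
  rw [h.h1, h.h3]
  ring

lemma IsR.nons (h : IsR W a b c) (h2 : (2 : K) ≠ 0) (hab : a ≠ b) (hac : a ≠ c) (hbc : b ≠ c)
    {x y : K} (he : y ^ 2 = (x - a) * (x - b) * (x - c)) : W.toAffine.Nonsingular x y := by
  rw [Affine.nonsingular_iff]
  refine ⟨(h.eqn x y).2 he, ?_⟩
  by_cases hy : y = 0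
  · left
    show W.a₁ * y ≠ 3 * x ^ 2 + 2 * W.a₂ * x + W.a₄
    rw [h.h1, h.h2, h.h4, hy, mul_zero]
    subst hy
    have h0 : (x - a) * (x - b) * (x - c) = 0 := by rw [← he]; ring
    intro h3
    have h3' : (x - a) * (x - b) + (x - a) * (x - c) + (x - b) * (x - c) = 0 := by
      linear_combination -h3
    rcases mul_eq_zero.1 h0 with h4 | h4
    · rcases mul_eq_zero.1 h4 with h5 | h5
      · have hx : x = a := sub_eq_zero.1 h5
        rw [hx, sub_self, zero_mul, zero_mul, zero_add, zero_add] at h3'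
        rcases mul_eq_zero.1 h3' with h6 | h6
        · exact hab (sub_eq_zero.1 h6)
        · exact hac (sub_eq_zero.1 h6)
      · have hx : x = b := sub_eq_zero.1 h5
        rw [hx, sub_self, mul_zero, zero_mul, zero_add, add_zero] at h3'
        rcases mul_eq_zero.1 h3' with h6 | h6
        · exact hab (sub_eq_zero.1 h6).symm
        · exact hbc (sub_eq_zero.1 h6)
    · have hx : x = c := sub_eq_zero.1 h4
      rw [hx, sub_self, mul_zero, mul_zero, add_zero, add_zero] at h3'
      rcases mul_eq_zero.1 h3' with h6 | h6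
      · exact hac (sub_eq_zero.1 h6).symm
      · exact hbc (sub_eq_zero.1 h6).symm
  · right
    show y ≠ -y - W.a₁ * x - W.a₃
    rw [h.h1, h.h3, zero_mul, sub_zero, sub_zero]
    intro h5
    apply hy
    have h6 : 2 * y = 0 := by linear_combination h5
    exact (mul_eq_zero.1 h6).resolve_left h2

variable [DecidableEq K]

lemma IsR.add_self (h : IsR W a b c) (h2 : (2 : K) ≠ 0) {u v : K}
    (hn : W.toAffine.Nonsingular u v) :
    (Affine.Point.some u v hn : W.toAffine.Point) + .some u v hn = 0 ↔ v = 0 := by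
  constructor
  · intro h3
    by_contra hv
    have hY : v ≠ W.toAffine.negY u v := by
      rw [h.negY]
      intro h5
      apply hv
      have h6 : 2 * v = 0 := by linear_combination h5
      exact (mul_eq_zero.1 h6).resolve_left h2
    rw [Affine.Point.add_self_of_Y_ne hY] at h3
    exact Affine.Point.some_ne_zero _ h3
  · intro hv
    apply Affine.Point.add_self_of_Y_eq
    rw [h.negY, hv, neg_zero]

/-- the points of order two -/
lemma IsR.tors (h : IsR W a b c) (h2 : (2 : K) ≠ 0) {T : W.toAffine.Point} (hT : T + T = 0) :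
    T = 0 ∨ (∃ hn, T = .some a 0 hn) ∨ (∃ hn, T = .some b 0 hn) ∨ (∃ hn, T = .some c 0 hn) := by
  rcases T with _ | ⟨u, v, hn⟩
  · left; rfl
  · right
    have hv : v = 0 := (h.add_self h2 hn).1 hT
    subst hv
    have he := (h.eqn u 0).1 hn.1
    have h0 : (u - a) * (u - b) * (u - c) = 0 := by rw [← he]; ring
    rcases mul_eq_zero.1 h0 with h4 | h4
    · rcases mul_eq_zero.1 h4 with h5 | h5
      · obtain rfl : u = a := sub_eq_zero.1 h5
        exact Or.inl ⟨hn, rfl⟩
      · obtain rfl : u = b := sub_eq_zero.1 h5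
        exact Or.inr (Or.inl ⟨hn, rfl⟩)
    · obtain rfl : u = c := sub_eq_zero.1 h4
      exact Or.inr (Or.inr ⟨hn, rfl⟩)

/-- duplication -/
lemma IsR.dup (h : IsR W a b c) (h2 : (2 : K) ≠ 0) {u v : K}
    (hn : W.toAffine.Nonsingular u v) (hv : v ≠ 0) :
    ∃ (X Y : K) (hn' : W.toAffine.Nonsingular X Y),
      (Affine.Point.some u v hn : W.toAffine.Point) + .some u v hn = .some X Y hn' ∧
      X - a = (((u - a) ^ 2 - (a - b) * (a - c)) / (2 * v)) ^ 2 := by
  have hY : v ≠ W.toAffine.negY u v := by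
    rw [h.negY]
    intro h5
    apply hv
    have h6 : 2 * v = 0 := by linear_combination h5
    exact (mul_eq_zero.1 h6).resolve_left h2
  refine ⟨_, _, _, Affine.Point.add_self_of_Y_ne hY, ?_⟩
  have he := (h.eqn u v).1 hn.1
  rw [Affine.slope_of_Y_ne rfl hY, h.negY]
  show ((3 * u ^ 2 + 2 * W.a₂ * u + W.a₄ - W.a₁ * v) / (v - -v)) ^ 2 +
    W.a₁ * ((3 * u ^ 2 + 2 * W.a₂ * u + W.a₄ - W.a₁ * v) / (v - -v)) - W.a₂ - u - u - a = _
  rw [h.h1, h.h2, h.h4]
  have hv2 : v - -v ≠ 0 := by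
    intro h5
    apply hv
    have h6 : 2 * v = 0 := by linear_combination h5
    exact (mul_eq_zero.1 h6).resolve_left h2
  have e1 : v - -v = 2 * v := by ring
  rw [e1]
  rw [zero_mul, zero_mul, sub_zero, add_zero, div_pow, div_pow]
  have h4 : (2 * v) ^ 2 ≠ 0 := pow_ne_zero 2 (mul_ne_zero h2 hv)
  rw [eq_div_iff h4]
  have e2 : ((3 * u ^ 2 + 2 * -(a + b + c) * u + (a * b + a * c + b * c)) ^ 2 / (2 * v) ^ 2 -
      -(a + b + c) - u - u - a) * (2 * v) ^ 2 =
      (3 * u ^ 2 + 2 * -(a + b + c) * u + (a * b + a * c + b * c)) ^ 2 +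
      ((a + b + c) - u - u - a) * (4 * v ^ 2) := by
    field_simp
    ring
  rw [e2, he]
  ring

/-- the sum with a point of order two -/
lemma IsR.trans (h : IsR W a b c) {u v : K}
    (hn : W.toAffine.Nonsingular u v) (hv : v ≠ 0) (ha : W.toAffine.Nonsingular a 0) :
    ∃ (X Y : K) (hn' : W.toAffine.Nonsingular X Y),
      (Affine.Point.some u v hn : W.toAffine.Point) + .some a 0 ha = .some X Y hn' ∧
      u - a ≠ 0 ∧ u - b ≠ 0 ∧ u - c ≠ 0 ∧
      X = a + (a - b) * (a - c) / (u - a) ∧ Y = - v * ((a - b) * (a - c)) / (u - a) ^ 2 := by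
  have he := (h.eqn u v).1 hn.1
  have hua : u - a ≠ 0 := by
    intro h0
    rw [h0, zero_mul, zero_mul] at he
    exact hv (pow_eq_zero_iff two_ne_zero |>.1 he)
  have hub : u - b ≠ 0 := by
    intro h0
    rw [h0, mul_zero, zero_mul] at he
    exact hv (pow_eq_zero_iff two_ne_zero |>.1 he)
  have huc : u - c ≠ 0 := by
    intro h0
    rw [h0, mul_zero] at he
    exact hv (pow_eq_zero_iff two_ne_zero |>.1 he)
  have hX : u ≠ a := fun h0 => hua (sub_eq_zero.2 h0)
  refine ⟨_, _, _, Affine.Point.add_of_X_ne hX, hua, hub, huc, ?_, ?_⟩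
  · rw [Affine.slope_of_X_ne hX]
    show ((v - 0) / (u - a)) ^ 2 + W.a₁ * ((v - 0) / (u - a)) - W.a₂ - u - a = _
    rw [h.h1, h.h2, zero_mul, add_zero, sub_zero, div_pow, he]
    field_simp
    ring
  · rw [Affine.slope_of_X_ne hX]
    show -(((v - 0) / (u - a)) * (((v - 0) / (u - a)) ^ 2 + W.a₁ * ((v - 0) / (u - a)) - W.a₂ - u
      - a - u) + v) - W.a₁ * _ - W.a₃ = _
    rw [h.h1, h.h2, h.h3, zero_mul, zero_mul, add_zero, sub_zero, sub_zero, sub_zero, div_pow, he]
    field_simp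
    ring

end

end Pool.Agent.TH841.SH
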