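import Mathlib
import Pool.Agent.TH841.SH.Alg

/-!
# Curves with full 2-torsion over a field: halving and signs
-/

set_option autoImplicit false

namespace Pool.Agent.TH841.SH

open WeierstrassCurve

section

variable {K : Type*} [Field K]

/-- `T` is zero or has abscissa `e` -/
def IsX (W : WeierstrassCurve K) (e : K) (T : W.toAffine.Point) : Prop :=
  T = 0 ∨ ∃ (y : K) (h : W.toAffine.Nonsingular e y), T = .some e y h

/-- the square root of `x (2 P) - a` -/
noncomputable def gf (W : WeierstrassCurve K) (a b c : K) : W.toAffine.Point → K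
  | 0 => 0
  | .some u v _ => ((u - a) ^ 2 - (a - b) * (a - c)) / (2 * v)

variable {W : WeierstrassCurve K} {a b c : K}

lemma IsR.gab (h2 : (2 : K) ≠ 0) (hab : a ≠ b) (hac : a ≠ c) {u v : K} (hv : v ≠ 0)
    (hu : u - a ≠ 0) {X Y : K} (hX : X = a + (a - b) * (a - c) / (u - a))
    (hY : Y = - v * ((a - b) * (a - c)) / (u - a) ^ 2) :
    ((X - a) ^ 2 - (a - b) * (a - c)) / (2 * Y) =
      ((u - a) ^ 2 - (a - b) * (a - c)) / (2 * v) := by
  have h1 : a - b ≠ 0 := sub_ne_zero.2 hab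
  have h3 : a - c ≠ 0 := sub_ne_zero.2 hac
  subst hX hY
  have e1 : a + (a - b) * (a - c) / (u - a) - a = (a - b) * (a - c) / (u - a) := by ring
  rw [e1, div_eq_div_iff _ (mul_ne_zero h2 hv)]
  · field_simp
    ring
  · exact mul_ne_zero h2 (div_ne_zero (mul_ne_zero (neg_ne_zero.2 hv) (mul_ne_zero h1 h3))
      (pow_ne_zero 2 hu))

lemma IsR.gba (h2 : (2 : K) ≠ 0) (hab : a ≠ b) (hac : a ≠ c) {u v : K} (hv : v ≠ 0)
    (hu : u - a ≠ 0) {X Y : K} (hX : X = a + (a - b) * (a - c) / (u - a))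
    (hY : Y = - v * ((a - b) * (a - c)) / (u - a) ^ 2) :
    ((X - b) ^ 2 - (b - a) * (b - c)) / (2 * Y) =
      - (((u - b) ^ 2 - (b - a) * (b - c)) / (2 * v)) := by
  have h1 : a - b ≠ 0 := sub_ne_zero.2 hab
  have h3 : a - c ≠ 0 := sub_ne_zero.2 hac
  subst hX hY
  rw [← neg_div, div_eq_div_iff _ (mul_ne_zero h2 hv)]
  · field_simp
    ring
  · exact mul_ne_zero h2 (div_ne_zero (mul_ne_zero (neg_ne_zero.2 hv) (mul_ne_zero h1 h3))
      (pow_ne_zero 2 hu))

lemma not_isX {x y e : K} (hn : W.toAffine.Nonsingular x y) (hne : x ≠ e) :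
    ¬ IsX W e (.some x y hn) := by
  rintro (h | ⟨y', h', h⟩)
  · exact Affine.Point.some_ne_zero _ h
  · rw [Affine.Point.some.injEq] at h
    exact hne h.1

lemma isX_zero (e : K) : IsX W e (0 : W.toAffine.Point) := Or.inl rfl

lemma isX_some {e y : K} (hn : W.toAffine.Nonsingular e y) : IsX W e (.some e y hn) :=
  Or.inr ⟨y, hn, rfl⟩

variable [DecidableEq K]

/-- translation by a point of order two and the sign of `gf` -/
lemma IsR.sign (h : IsR W a b c) (h2 : (2 : K) ≠ 0) (hab : a ≠ b) (hac : a ≠ c) (hbc : b ≠ c)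
    {u v : K} (hn : W.toAffine.Nonsingular u v) (hv : v ≠ 0) {T : W.toAffine.Point}
    (hT : T + T = 0) :
    ∃ (u' v' : K) (hn' : W.toAffine.Nonsingular u' v'),
      (Affine.Point.some u v hn : W.toAffine.Point) + T = .some u' v' hn' ∧ v' ≠ 0 ∧
      (IsX W a T → gf W a b c (.some u' v' hn') = gf W a b c (.some u v hn)) ∧
      (¬ IsX W a T → gf W a b c (.some u' v' hn') = - gf W a b c (.some u v hn)) := by
  have hab' : a - b ≠ 0 := sub_ne_zero.2 hab
  have hac' : a - c ≠ 0 := sub_ne_zero.2 hac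
  have hbc' : b - c ≠ 0 := sub_ne_zero.2 hbc
  have hba' : b - a ≠ 0 := sub_ne_zero.2 hab.symm
  have hca' : c - a ≠ 0 := sub_ne_zero.2 hac.symm
  have hcb' : c - b ≠ 0 := sub_ne_zero.2 hbc.symm
  rcases h.tors h2 hT with rfl | ⟨ha, rfl⟩ | ⟨hb, rfl⟩ | ⟨hc, rfl⟩
  · exact ⟨u, v, hn, add_zero _, hv, fun _ => rfl, fun h' => absurd (isX_zero a) h'⟩
  · obtain ⟨X, Y, hn', e1, q1, q2, q3, hX, hY⟩ := h.trans hn hv ha
    refine ⟨X, Y, hn', e1, ?_, fun _ => ?_, fun h' => absurd (isX_some ha) h'⟩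
    · rw [hY]
      exact div_ne_zero (mul_ne_zero (neg_ne_zero.2 hv) (mul_ne_zero hab' hac'))
        (pow_ne_zero 2 q1)
    · exact IsR.gab h2 hab hac hv q1 hX hY
  · obtain ⟨X, Y, hn', e1, q1, q2, q3, hX, hY⟩ := h.swap.trans hn hv hb
    refine ⟨X, Y, hn', e1, ?_, fun h' => absurd h' (not_isX hb hab.symm), fun _ => ?_⟩
    · rw [hY]
      exact div_ne_zero (mul_ne_zero (neg_ne_zero.2 hv) (mul_ne_zero hba' hbc'))
        (pow_ne_zero 2 q1)
    · have := IsR.gba h2 hab.symm hbc hv q1 hX hY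
      exact this
  · obtain ⟨X, Y, hn', e1, q1, q2, q3, hX, hY⟩ := h.rot.rot.trans hn hv hc
    refine ⟨X, Y, hn', e1, ?_, fun h' => absurd h' (not_isX hc hac.symm), fun _ => ?_⟩
    · rw [hY]
      exact div_ne_zero (mul_ne_zero (neg_ne_zero.2 hv) (mul_ne_zero hca' hcb'))
        (pow_ne_zero 2 q1)
    · have := IsR.gba h2 hac.symm hbc.symm hv q1 hX hY
      show ((X - a) ^ 2 - (a - b) * (a - c)) / (2 * Y) =
        - (((u - a) ^ 2 - (a - b) * (a - c)) / (2 * v))
      rw [mul_comm (a - b) (a - c)]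
      exact this

/-- halving -/
lemma IsR.halve (h : IsR W a b c) (h2 : (2 : K) ≠ 0) (hab : a ≠ b) (hac : a ≠ c) (hbc : b ≠ c)
    {x y s t w : K} (hn : W.toAffine.Nonsingular x y) (hs : x - a = s ^ 2) (ht : x - b = t ^ 2)
    (hw : x - c = w ^ 2) (hy : y = s * t * w) :
    ∃ Q : W.toAffine.Point, (Affine.Point.some x y hn : W.toAffine.Point) = Q + Q := by
  have hst : s + t ≠ 0 := by
    intro h0
    apply hab
    have : t = -s := by linear_combination h0
    rw [this] at ht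
    linear_combination ht - hs
  have hsw : s + w ≠ 0 := by
    intro h0
    apply hac
    have : w = -s := by linear_combination h0
    rw [this] at hw
    linear_combination hw - hs
  have htw : t + w ≠ 0 := by
    intro h0
    apply hbc
    have : w = -t := by linear_combination h0
    rw [this] at hw
    linear_combination hw - ht
  set u := x + (s * t + s * w + t * w) with hu
  set v := (s + t) * (s + w) * (t + w) with hvd
  have hv : v ≠ 0 := mul_ne_zero (mul_ne_zero hst hsw) htw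
  have e1 : u - a = (s + t) * (s + w) := by linear_combination hs
  have e2 : u - b = (s + t) * (t + w) := by linear_combination ht
  have e3 : u - c = (s + w) * (t + w) := by linear_combination hw
  have he : v ^ 2 = (u - a) * (u - b) * (u - c) := by
    rw [e1, e2, e3, hvd]
    ring
  have hn' := h.nons h2 hab hac hbc he
  refine ⟨.some u v hn', ?_⟩
  have hY : v ≠ W.toAffine.negY u v := by
    rw [h.negY]
    intro h5
    apply hv
    have h6 : 2 * v = 0 := by linear_combination h5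
    exact (mul_eq_zero.1 h6).resolve_left h2
  rw [Affine.Point.add_self_of_Y_ne hY]
  have hsl : W.toAffine.slope u u v v = s + t + w := by
    rw [Affine.slope_of_Y_ne rfl hY, h.negY]
    show (3 * u ^ 2 + 2 * W.a₂ * u + W.a₄ - W.a₁ * v) / (v - -v) = _
    rw [h.h1, h.h2, h.h4]
    have hv2 : v - -v ≠ 0 := by
      intro h5
      apply hv
      have h6 : 2 * v = 0 := by linear_combination h5
      exact (mul_eq_zero.1 h6).resolve_left h2
    rw [div_eq_iff hv2]
    have e4 : 3 * u ^ 2 + 2 * -(a + b + c) * u + (a * b + a * c + b * c) - 0 * v =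
      (u - a) * (u - b) + (u - a) * (u - c) + (u - b) * (u - c) := by ring
    rw [e4, e1, e2, e3, hvd]
    ring
  congr 1
  · rw [hsl]
    show x = (s + t + w) ^ 2 + W.a₁ * (s + t + w) - W.a₂ - u - u
    rw [h.h1, h.h2]
    linear_combination hs + ht + hw + 2 * hu
  · rw [hsl]
    show y = -((s + t + w) * ((s + t + w) ^ 2 + W.a₁ * (s + t + w) - W.a₂ - u - u - u) + v)
      - W.a₁ * _ - W.a₃
    rw [h.h1, h.h2, h.h3]
    rw [hy]
    linear_combination (-(s + t + w)) * (hs + ht + hw) - 3 * (s + t + w) * hu - hvd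

/-- division by two over algebraically closed fields -/
lemma IsR.div [IsAlgClosed K] (h : IsR W a b c) (h2 : (2 : K) ≠ 0) (hab : a ≠ b) (hac : a ≠ c)
    (hbc : b ≠ c) (P : W.toAffine.Point) : ∃ Q, P = Q + Q := by
  rcases P with _ | ⟨x, y, hn⟩
  · exact ⟨0, (add_zero _).symm⟩
  · obtain ⟨s, hs⟩ := IsAlgClosed.exists_pow_nat_eq (x - a) (n := 2) (by norm_num)
    obtain ⟨t, ht⟩ := IsAlgClosed.exists_pow_nat_eq (x - b) (n := 2) (by norm_num)
    obtain ⟨w, hw⟩ := IsAlgClosed.exists_pow_nat_eq (x - c) (n := 2) (by norm_num)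
    have he := (h.eqn x y).1 hn.1
    have h3 : y ^ 2 = (s * t * w) ^ 2 := by
      rw [he, ← hs, ← ht, ← hw]
      ring
    rcases sq_eq_sq_iff_eq_or_eq_neg.1 h3 with h4 | h4
    · exact h.halve h2 hab hac hbc hn hs.symm ht.symm hw.symm h4
    · refine h.halve h2 hab hac hbc (s := -s) hn ?_ ht.symm hw.symm (by rw [h4]; ring)
      rw [← hs]
      ring

/-- the sum of two points of order two -/
lemma IsR.add_two (h : IsR W a b c) (hab : a ≠ b) (ha : W.toAffine.Nonsingular a 0)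
    (hb : W.toAffine.Nonsingular b 0) : ∃ hc : W.toAffine.Nonsingular c 0,
    (Affine.Point.some a 0 ha : W.toAffine.Point) + .some b 0 hb = .some c 0 hc := by
  have e1 : W.toAffine.slope a b 0 0 = 0 := by
    rw [Affine.slope_of_X_ne hab, sub_zero, zero_div]
  have e2 : W.toAffine.addX a b (W.toAffine.slope a b 0 0) = c := by
    rw [e1]
    show (0 : K) ^ 2 + W.a₁ * 0 - W.a₂ - a - b = c
    rw [h.h2]
    ring
  have e3 : W.toAffine.addY a b 0 (W.toAffine.slope a b 0 0) = 0 := by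
    rw [e1]
    show -((0 : K) * _ + 0) - W.a₁ * _ - W.a₃ = 0
    rw [h.h1, h.h3]
    ring
  have e4 := Affine.Point.add_of_X_ne (W := W.toAffine) (h₁ := ha) (h₂ := hb) hab
  have e5 := Affine.nonsingular_add ha hb (fun hxy => hab hxy.left)
  rw [e2, e3] at e5
  refine ⟨e5, ?_⟩
  rw [e4]
  congr 1

/-- the pairing with a point of order two is additive -/
lemma IsR.isX_add (h : IsR W a b c) (h2 : (2 : K) ≠ 0) (hab : a ≠ b) (hac : a ≠ c)
    (hbc : b ≠ c) {T T' : W.toAffine.Point} (hT : T + T = 0) (hT' : T' + T' = 0) :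
    IsX W a (T + T') ↔ (IsX W a T ↔ IsX W a T') := by
  have key : ∀ {P Q : W.toAffine.Point}, IsX W a P → ¬ IsX W a Q → P + P = 0 → Q + Q = 0 →
      ¬ IsX W a (P + Q) := by
    intro P Q hP hQ h4 h5
    rcases h.tors h2 h4 with rfl | ⟨ha, rfl⟩ | ⟨hb, rfl⟩ | ⟨hc, rfl⟩
    · rwa [zero_add]
    · rcases h.tors h2 h5 with rfl | ⟨ha', rfl⟩ | ⟨hb, rfl⟩ | ⟨hc, rfl⟩
      · exact absurd (isX_zero a) hQ
      · exact absurd (isX_some ha') hQ
      · obtain ⟨hc, e⟩ := h.add_two hab ha hb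
        rw [e]
        exact not_isX hc hac.symm
      · obtain ⟨hb, e⟩ := (h.rot.rot.swap).add_two hac ha hc
        rw [e]
        exact not_isX hb hab.symm
    · exact absurd hP (not_isX hb hab.symm)
    · exact absurd hP (not_isX hc hac.symm)
  have key2 : ∀ {P Q : W.toAffine.Point}, IsX W a P → IsX W a Q → P + P = 0 → Q + Q = 0 →
      IsX W a (P + Q) := by
    intro P Q hP hQ h4 h5
    rcases h.tors h2 h4 with rfl | ⟨ha, rfl⟩ | ⟨hb, rfl⟩ | ⟨hc, rfl⟩
    · rwa [zero_add]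
    · rcases h.tors h2 h5 with rfl | ⟨ha', rfl⟩ | ⟨hb, rfl⟩ | ⟨hc, rfl⟩
      · rwa [add_zero]
      · rw [h4]
        exact isX_zero a
      · exact absurd hQ (not_isX hb hab.symm)
      · exact absurd hQ (not_isX hc hac.symm)
    · exact absurd hP (not_isX hb hab.symm)
    · exact absurd hP (not_isX hc hac.symm)
  have key3 : ∀ {P Q : W.toAffine.Point}, ¬ IsX W a P → ¬ IsX W a Q → P + P = 0 → Q + Q = 0 →
      IsX W a (P + Q) := by
    intro P Q hP hQ h4 h5
    rcases h.tors h2 h4 with rfl | ⟨ha, rfl⟩ | ⟨hb, rfl⟩ | ⟨hc, rfl⟩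
    · exact absurd (isX_zero a) hP
    · exact absurd (isX_some ha) hP
    · rcases h.tors h2 h5 with rfl | ⟨ha', rfl⟩ | ⟨hb', rfl⟩ | ⟨hc, rfl⟩
      · exact absurd (isX_zero a) hQ
      · exact absurd (isX_some ha') hQ
      · rw [h4]
        exact isX_zero a
      · obtain ⟨ha, e⟩ := h.rot.add_two hbc hb hc
        rw [e]
        exact isX_some ha
    · rcases h.tors h2 h5 with rfl | ⟨ha', rfl⟩ | ⟨hb, rfl⟩ | ⟨hc', rfl⟩
      · exact absurd (isX_zero a) hQ
      · exact absurd (isX_some ha') hQ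
      · obtain ⟨ha, e⟩ := h.rot.swap.add_two hbc.symm hc hb
        rw [e]
        exact isX_some ha
      · rw [h4]
        exact isX_zero a
  by_cases h3 : IsX W a T <;> by_cases h4 : IsX W a T'
  · simp only [h3, h4, iff_true]
    exact key2 h3 h4 hT hT'
  · exact ⟨fun h' => absurd h' (key h3 h4 hT hT'), fun h' => absurd (h'.1 h3) h4⟩
  · simp only [h3, h4, false_iff, not_true_eq_false, iff_false]
    rw [add_comm]
    exact key h4 h3 hT' hT
  · simp only [h3, h4, iff_true]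
    exact key3 h3 h4 hT hT'

/-- a point of order two is determined by the pairings -/
lemma IsR.ext (h : IsR W a b c) (h2 : (2 : K) ≠ 0) (hab : a ≠ b) (hac : a ≠ c)
    (hbc : b ≠ c) {T T' : W.toAffine.Point} (hT : T + T = 0) (hT' : T' + T' = 0)
    (h1 : IsX W a T ↔ IsX W a T') (h3 : IsX W b T ↔ IsX W b T') : T = T' := by
  rcases h.tors h2 hT with rfl | ⟨ha, rfl⟩ | ⟨hb, rfl⟩ | ⟨hc, rfl⟩ <;>
    rcases h.tors h2 hT' with rfl | ⟨ha', rfl⟩ | ⟨hb', rfl⟩ | ⟨hc', rfl⟩
  · rfl
  · exact absurd (h3.1 (isX_zero b)) (not_isX ha' hab)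
  · exact absurd (h1.1 (isX_zero a)) (not_isX hb' hab.symm)
  · exact absurd (h1.1 (isX_zero a)) (not_isX hc' hac.symm)
  · exact absurd (h3.2 (isX_zero b)) (not_isX ha hab)
  · rfl
  · exact absurd (h1.1 (isX_some ha)) (not_isX hb' hab.symm)
  · exact absurd (h1.1 (isX_some ha)) (not_isX hc' hac.symm)
  · exact absurd (h1.2 (isX_zero a)) (not_isX hb hab.symm)
  · exact absurd (h1.2 (isX_some ha')) (not_isX hb hab.symm)
  · rfl
  · exact absurd (h3.1 (isX_some hb)) (not_isX hc' hbc.symm)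
  · exact absurd (h1.2 (isX_zero a)) (not_isX hc hac.symm)
  · exact absurd (h1.2 (isX_some ha')) (not_isX hc hac.symm)
  · exact absurd (h3.2 (isX_some hb')) (not_isX hc hbc.symm)
  · rfl

end

end Pool.Agent.TH841.SH
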