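import Mathlib
import Pool.Agent.W262.SH.Stm

/-!
# Quadratic characters of the absolute Galois group of `ℚ`
-/

set_option autoImplicit false

namespace Pool.Agent.TH841.SH

open Pool.Agent.W262.SH (QB)

instance isAlgQB : Algebra.IsAlgebraic ℚ QB := AlgebraicClosure.isAlgebraic ℚ

instance isAlgClosureQB : IsAlgClosure ℚ QB := ⟨inferInstance, inferInstance⟩

instance isGalQB : IsGalois ℚ QB where
  to_isSeparable := inferInstance
  to_normal := IsAlgClosure.normal ℚ QB

instance isGalAC (K : Type*) [Field K] [CharZero K] : IsGalois K (AlgebraicClosure K) where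

/-- an element fixed by all the automorphisms lies in the base field -/
lemma fix_mem {K L : Type*} [Field K] [Field L] [Algebra K L] [IsGalois K L] (x : L)
    (h : ∀ σ : L ≃ₐ[K] L, σ x = x) : ∃ y : K, algebraMap K L y = x := by
  have := InfiniteGalois.mem_bot_iff_fixed (k := K) (K := L) x
  rw [IntermediateField.mem_bot] at this
  exact this.2 h

lemma exists_sqf (q : ℚ) (hq : q ≠ 0) : ∃ (e : ℤ) (r : ℚ), Squarefree e ∧ r ≠ 0 ∧ q = e * r ^ 2 := by
  have h1 : q.num * q.den ≠ 0 := mul_ne_zero (Rat.num_ne_zero.2 hq) (by exact_mod_cast q.den_ne_zero)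
  obtain ⟨a, b, hab, ha⟩ := Nat.sq_mul_squarefree (q.num * q.den).natAbs
  have hb : b ≠ 0 := by
    rintro rfl
    apply h1
    rw [← Int.natAbs_eq_zero, ← hab]
    simp
  have hd : (q.den : ℚ) ≠ 0 := by exact_mod_cast q.den_ne_zero
  have hb' : (b : ℚ) ≠ 0 := by exact_mod_cast hb
  have hqq : q = (q.num * q.den : ℤ) / (q.den : ℚ) ^ 2 := by
    push_cast
    field_simp
    exact Rat.mul_den_eq_num q
  rcases Int.natAbs_eq (q.num * q.den) with h | h
  · refine ⟨a, b / q.den, ?_, div_ne_zero hb' hd, ?_⟩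
    · rw [← Int.squarefree_natAbs]
      simpa using ha
    · have h2 : ((q.num * q.den : ℤ) : ℚ) = (b : ℚ) ^ 2 * a := by
        rw [h, ← hab]
        push_cast
        ring
      nth_rw 1 [hqq]
      rw [h2]
      field_simp
      push_cast
      ring
  · refine ⟨-a, b / q.den, ?_, div_ne_zero hb' hd, ?_⟩
    · rw [← Int.squarefree_natAbs]
      simpa using ha
    · have h2 : ((q.num * q.den : ℤ) : ℚ) = - ((b : ℚ) ^ 2 * a) := by
        rw [h, ← hab]
        push_cast
        ring
      nth_rw 1 [hqq]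
      rw [h2]
      field_simp
      push_cast
      ring

/-- quadratic characters of the absolute Galois group of `ℚ` -/
theorem kum (χ : (QB ≃ₐ[ℚ] QB) → Bool) (hc : IsLocallyConstant χ)
    (hm : ∀ σ τ, χ (σ * τ) = xor (χ σ) (χ τ)) :
    ∃ e : ℤ, Squarefree e ∧ ∀ s : QB, s ^ 2 = e → ∀ σ : QB ≃ₐ[ℚ] QB, σ s = s ↔ χ σ = false := by
  have h1 : χ 1 = false := by
    have := hm 1 1
    rw [mul_one] at this
    cases h : χ 1 <;> simp_all
  have hinv : ∀ σ, χ σ⁻¹ = χ σ := by
    intro σ
    have := hm σ σ⁻¹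
    rw [mul_inv_cancel, h1] at this
    generalize χ σ = u at this ⊢
    generalize χ σ⁻¹ = v at this ⊢
    revert u v
    decide
  by_cases htriv : ∀ σ, χ σ = false
  · refine ⟨1, squarefree_one, fun s hs σ => ?_⟩
    simp only [htriv σ, iff_true]
    have hs' : s ^ 2 = 1 := by rw [hs]; simp
    rcases sq_eq_one_iff.1 hs' with h | h
    · rw [h, map_one]
    · rw [h, map_neg, map_one]
  push Not at htriv
  obtain ⟨τ, hτ⟩ := htriv
  have hτ' : χ τ = true := by simpa using hτ
  let N : Subgroup (QB ≃ₐ[ℚ] QB) :=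
    { carrier := {σ | χ σ = false}
      one_mem' := h1
      mul_mem' := by
        intro a b ha hb
        simp only [Set.mem_ofPred_eq] at ha hb ⊢
        rw [hm, ha, hb]
        rfl
      inv_mem' := by
        intro a ha
        simp only [Set.mem_ofPred_eq] at ha ⊢
        rw [hinv, ha] }
  have hN : ∀ σ, σ ∈ N ↔ χ σ = false := fun σ => Iff.rfl
  have hcl : IsClosed (N : Set (QB ≃ₐ[ℚ] QB)) := by
    have : (N : Set (QB ≃ₐ[ℚ] QB)) = χ ⁻¹' {false} := by
      ext σ
      simp [hN]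
    rw [this]
    exact hc.isClosed_fiber false
  let N' : ClosedSubgroup (QB ≃ₐ[ℚ] QB) := { N with isClosed' := hcl }
  have hfix := InfiniteGalois.fixingSubgroup_fixedField (k := ℚ) (K := QB) N'
  -- an element of the fixed field that is not rational
  obtain ⟨x, hx, hxτ⟩ : ∃ x : QB, (∀ σ, χ σ = false → σ x = x) ∧ τ x ≠ x := by
    by_contra hcon
    push Not at hcon
    have h2 : τ ∈ (IntermediateField.fixedField N'.toSubgroup).fixingSubgroup := by
      rw [IntermediateField.mem_fixingSubgroup_iff]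
      intro x hx
      rw [IntermediateField.mem_fixedField_iff] at hx
      exact hcon x (fun σ hσ => hx σ hσ)
    rw [hfix] at h2
    exact hτ h2
  set s := x - τ x with hs
  have hs0 : s ≠ 0 := fun h => hxτ (sub_eq_zero.1 h).symm
  have hfixτ : ∀ σ, χ σ = false → σ (τ x) = τ x := by
    intro σ hσ
    have h2 : χ (τ⁻¹ * σ * τ) = false := by
      rw [hm, hm, hinv, hσ, hτ']
      rfl
    have h3 := hx _ h2
    rw [AlgEquiv.mul_apply, AlgEquiv.mul_apply] at h3
    have h4 := congrArg τ h3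
    rw [← AlgEquiv.mul_apply τ τ⁻¹, mul_inv_cancel, AlgEquiv.one_apply] at h4
    exact h4
  have hττ : τ (τ x) = x := by
    have h2 : χ (τ * τ) = false := by
      rw [hm, hτ']
      rfl
    have h3 := hx _ h2
    rwa [AlgEquiv.mul_apply] at h3
  have hσ0 : ∀ σ, χ σ = false → σ s = s := by
    intro σ hσ
    rw [hs, map_sub, hx σ hσ, hfixτ σ hσ]
  have hτs : τ s = -s := by
    rw [hs, map_sub, hττ]
    ring
  have hσ1 : ∀ σ, χ σ = true → σ s = -s := by
    intro σ hσ
    have h2 : χ (τ⁻¹ * σ) = false := by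
      rw [hm, hinv, hσ, hτ']
      rfl
    have h3 := hσ0 _ h2
    rw [AlgEquiv.mul_apply] at h3
    have h4 := congrArg τ h3
    rw [← AlgEquiv.mul_apply τ τ⁻¹, mul_inv_cancel, AlgEquiv.one_apply, hτs] at h4
    exact h4
  obtain ⟨q, hq⟩ : ∃ q : ℚ, algebraMap ℚ QB q = s ^ 2 := by
    apply fix_mem
    intro σ
    rw [map_pow]
    cases h : χ σ
    · rw [hσ0 σ h]
    · rw [hσ1 σ h]
      ring
  have hq0 : q ≠ 0 := by
    rintro rfl
    rw [map_zero] at hq
    exact hs0 (pow_eq_zero_iff two_ne_zero |>.1 hq.symm)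
  obtain ⟨e, r, he, hr, hqe⟩ := exists_sqf q hq0
  have hr' : algebraMap ℚ QB r ≠ 0 := by
    rw [Ne, map_eq_zero]
    exact hr
  refine ⟨e, he, fun t ht σ => ?_⟩
  have h5 : (t * algebraMap ℚ QB r) ^ 2 = s ^ 2 := by
    rw [mul_pow, ht, ← hq, hqe, map_mul, map_pow]
    simp
  have h6 : ∀ σ : QB ≃ₐ[ℚ] QB, σ t = t ↔ σ s = s := by
    intro σ
    have h7 : σ t = t ↔ σ (t * algebraMap ℚ QB r) = t * algebraMap ℚ QB r := by
      rw [map_mul, AlgEquiv.commutes]
      exact (mul_left_inj' hr').symm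
    rcases sq_eq_sq_iff_eq_or_eq_neg.1 h5 with h8 | h8
    · rw [h7, h8]
    · rw [h7, h8, map_neg, neg_inj]
  rw [h6]
  cases h : χ σ
  · simp [hσ0 σ h]
  · simp only [reduceCtorEq, iff_false]
    rw [hσ1 σ h]
    intro h9
    apply hs0
    have h10 : (2 : QB) * s = 0 := by linear_combination -h9
    exact (mul_eq_zero.1 h10).resolve_left two_ne_zero

end Pool.Agent.TH841.SH
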