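import Mathlib
import Pool.Agent.TH841.SH.Kum

/-!
# The Tate-Shafarevich group of an elliptic curve over `ℚ`

The definition is in the file `Pool/Agent/W262/SH/Stm.lean`. Here: the Selmer homomorphisms.
-/

set_option autoImplicit false

namespace Pool.Agent.TH841.SH

open WeierstrassCurve

open scoped Classical

open Pool.Agent.W262.SH (QB Pt act IsCoc IsCob LocTriv shaCoc cob Sha)

/-- locally trivial at all the places of `ℚ` -/
def EvLoc (W : WeierstrassCurve ℚ) (f : (QB ≃ₐ[ℚ] QB) → Pt W QB) : Prop :=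
  (∀ (p : ℕ) [Fact p.Prime], LocTriv W ℚ_[p] f) ∧ LocTriv W ℝ f

lemma locTriv_zero (W : WeierstrassCurve ℚ) (K : Type) [Field K] [Algebra ℚ K] :
    LocTriv W K 0 := fun ι => ⟨0, fun τ σ _ => by simp⟩

lemma locTriv_add {W : WeierstrassCurve ℚ} {K : Type} [Field K] [Algebra ℚ K]
    {f g : (QB ≃ₐ[ℚ] QB) → Pt W QB} (hf : LocTriv W K f) (hg : LocTriv W K g) :
    LocTriv W K (f + g) := by
  intro ι
  obtain ⟨P, hP⟩ := hf ι
  obtain ⟨Q, hQ⟩ := hg ι
  refine ⟨P + Q, fun τ σ h => ?_⟩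
  simp only [Pi.add_apply, map_add, hP τ σ h, hQ τ σ h]
  abel

lemma locTriv_neg {W : WeierstrassCurve ℚ} {K : Type} [Field K] [Algebra ℚ K]
    {f : (QB ≃ₐ[ℚ] QB) → Pt W QB} (hf : LocTriv W K f) : LocTriv W K (-f) := by
  intro ι
  obtain ⟨P, hP⟩ := hf ι
  refine ⟨-P, fun τ σ h => ?_⟩
  simp only [Pi.neg_apply, map_neg, hP τ σ h]
  abel

lemma EvLoc.zero (W : WeierstrassCurve ℚ) : EvLoc W 0 :=
  ⟨fun _ _ => locTriv_zero W _, locTriv_zero W _⟩

lemma EvLoc.add {W : WeierstrassCurve ℚ} {f g : (QB ≃ₐ[ℚ] QB) → Pt W QB} (hf : EvLoc W f)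
    (hg : EvLoc W g) : EvLoc W (f + g) :=
  ⟨fun p _ => locTriv_add (hf.1 p) (hg.1 p), locTriv_add hf.2 hg.2⟩

lemma EvLoc.neg {W : WeierstrassCurve ℚ} {f : (QB ≃ₐ[ℚ] QB) → Pt W QB} (hf : EvLoc W f) :
    EvLoc W (-f) :=
  ⟨fun p _ => locTriv_neg (hf.1 p), locTriv_neg hf.2⟩

/-- the Selmer homomorphisms: elements of the 2-Selmer group for curves with full 2-torsion -/
noncomputable def selHom (W : WeierstrassCurve ℚ) :
    AddSubgroup ((QB ≃ₐ[ℚ] QB) → Pt W QB) where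
  carrier := {f | IsLocallyConstant f ∧ (∀ σ, f σ + f σ = 0) ∧ (∀ σ τ, f (σ * τ) = f σ + f τ) ∧
    EvLoc W f}
  zero_mem' := ⟨IsLocallyConstant.const _, fun σ => by simp, fun σ τ => by simp, EvLoc.zero W⟩
  add_mem' := by
    rintro f g ⟨hf1, hf2, hf3, hf4⟩ ⟨hg1, hg2, hg3, hg4⟩
    refine ⟨hf1.add hg1, fun σ => ?_, fun σ τ => ?_, hf4.add hg4⟩
    · have e : (f + g) σ + (f + g) σ = (f σ + f σ) + (g σ + g σ) := by
        simp only [Pi.add_apply]
        abel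
      rw [e, hf2, hg2, add_zero]
    · simp only [Pi.add_apply, hf3, hg3]
      abel
  neg_mem' := by
    rintro f ⟨hf1, hf2, hf3, hf4⟩
    refine ⟨hf1.neg, fun σ => ?_, fun σ τ => ?_, hf4.neg⟩
    · have e : (-f) σ + (-f) σ = -(f σ + f σ) := by
        simp only [Pi.neg_apply]
        abel
      rw [e, hf2, neg_zero]
    · simp only [Pi.neg_apply, hf3]
      abel

end Pool.Agent.TH841.SH
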