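import Mathlib
import Pool.Agent.TH841.SH.Defs
import Pool.Agent.TH841.SH.Alg2

/-!
# The local conditions
-/

set_option autoImplicit false

namespace Pool.Agent.TH841.SH

open WeierstrassCurve

open scoped Classical

open Pool.Agent.W262.SH (QB Pt act IsCoc IsCob LocTriv shaCoc cob Sha)

lemma IsR.base {W : WeierstrassCurve ℚ} {a b c : ℚ} (h : IsR W a b c) (L : Type) [Field L]
    [Algebra ℚ L] : IsR (W.baseChange L) (algebraMap ℚ L a) (algebraMap ℚ L b)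
      (algebraMap ℚ L c) where
  h1 := by
    show algebraMap ℚ L W.a₁ = 0
    rw [h.h1, map_zero]
  h2 := by
    show algebraMap ℚ L W.a₂ = _
    rw [h.h2, map_neg, map_add, map_add]
  h3 := by
    show algebraMap ℚ L W.a₃ = 0
    rw [h.h3, map_zero]
  h4 := by
    show algebraMap ℚ L W.a₄ = _
    rw [h.h4, map_add, map_add, map_mul, map_mul, map_mul]
  h6 := by
    show algebraMap ℚ L W.a₆ = _
    rw [h.h6, map_neg, map_mul, map_mul]

lemma act_some (W : WeierstrassCurve ℚ) {F L : Type} [Field F] [Field L] [Algebra ℚ F]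
    [Algebra ℚ L] (φ : F →ₐ[ℚ] L) {x y : F} (h : (W.baseChange F).toAffine.Nonsingular x y) :
    act W φ (.some x y h) =
      .some (φ x) (φ y) ((Affine.baseChange_nonsingular W φ.injective ..).mpr h) := rfl

lemma act_inj (W : WeierstrassCurve ℚ) {F L : Type} [Field F] [Field L] [Algebra ℚ F]
    [Algebra ℚ L] (φ : F →ₐ[ℚ] L) : Function.Injective (act W φ) :=
  Affine.Point.map_injective φ

lemma act_act (W : WeierstrassCurve ℚ) {F L M : Type} [Field F] [Field L] [Field M] [Algebra ℚ F]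
    [Algebra ℚ L] [Algebra ℚ M] (φ : F →ₐ[ℚ] L) (ψ : L →ₐ[ℚ] M) (P : Pt W F) :
    act W ψ (act W φ P) = act W (ψ.comp φ) P :=
  Affine.Point.map_map φ ψ P

lemma act_isX (W : WeierstrassCurve ℚ) {F L : Type} [Field F] [Field L] [Algebra ℚ F]
    [Algebra ℚ L] (φ : F →ₐ[ℚ] L) (e : ℚ) (T : Pt W F) :
    IsX (W.baseChange L) (algebraMap ℚ L e) (act W φ T) ↔
      IsX (W.baseChange F) (algebraMap ℚ F e) T := by
  rcases T with _ | ⟨x, y, h⟩
  · exact ⟨fun _ => Or.inl rfl, fun _ => Or.inl rfl⟩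
  · by_cases hx : x = algebraMap ℚ F e
    · subst hx
      refine ⟨fun _ => isX_some h, fun _ => ?_⟩
      rw [act_some]
      right
      refine ⟨φ y, ?_, ?_⟩
      · have := (Affine.baseChange_nonsingular W φ.injective ..).mpr h
        rwa [φ.commutes] at this
      · congr 1
        exact φ.commutes e
    · refine ⟨fun h' => absurd h' ?_, fun h' => absurd h' (not_isX h hx)⟩
      rw [act_some]
      apply not_isX
      intro h2
      apply hx
      apply φ.injective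
      show φ x = φ (algebraMap ℚ F e)
      rw [h2, φ.commutes]

/-- `gf` and the action -/
lemma act_gf {W : WeierstrassCurve ℚ} {a b c : ℚ} {L : Type} [Field L]
    [Algebra ℚ L] (φ : L →ₐ[ℚ] L) (R : Pt W L) :
    φ (gf (W.baseChange L) (algebraMap ℚ L a) (algebraMap ℚ L b) (algebraMap ℚ L c) R) =
      gf (W.baseChange L) (algebraMap ℚ L a) (algebraMap ℚ L b) (algebraMap ℚ L c)
        (act W φ R) := by
  rcases R with _ | ⟨u, v, h⟩
  · exact map_zero φ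
  · rw [act_some]
    show φ (((u - algebraMap ℚ L a) ^ 2 - (algebraMap ℚ L a - algebraMap ℚ L b) *
      (algebraMap ℚ L a - algebraMap ℚ L c)) / (2 * v)) = ((φ u - algebraMap ℚ L a) ^ 2 -
      (algebraMap ℚ L a - algebraMap ℚ L b) * (algebraMap ℚ L a - algebraMap ℚ L c)) / (2 * φ v)
    simp only [map_div₀, map_sub, map_pow, map_mul, map_ofNat, AlgHom.commutes]

section

variable {K Ω : Type} [Field K] [Field Ω] [Algebra ℚ K] [Algebra K Ω] [Algebra ℚ Ω]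
  [IsScalarTower ℚ K Ω]

/-- restriction of automorphisms -/
lemma exists_restr (ι : QB →ₐ[ℚ] Ω) (τ : Ω ≃ₐ[K] Ω) :
    ∃ σ : QB ≃ₐ[ℚ] QB, (τ.toAlgHom.restrictScalars ℚ).comp ι = ι.comp σ.toAlgHom := by
  let _ : Algebra QB Ω := ι.toRingHom.toAlgebra
  have : IsScalarTower ℚ QB Ω :=
    IsScalarTower.of_algebraMap_eq (fun x => (ι.commutes x).symm)
  let τ' : Ω ≃ₐ[ℚ] Ω := τ.restrictScalars ℚ
  refine ⟨τ'.restrictNormal QB, ?_⟩
  ext x
  exact (AlgEquiv.restrictNormal_commutes τ' QB x).symm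

lemma exists_emb (Ω : Type) [Field Ω] [Algebra ℚ Ω] [IsAlgClosed Ω] : Nonempty (QB →ₐ[ℚ] Ω) :=
  ⟨IsAlgClosed.lift⟩

variable [IsGalois K Ω]

/-- one of the square roots -/
lemma loc_one (h2 : (2 : Ω) ≠ 0)
    {W : WeierstrassCurve ℚ} {a b c : ℚ} (h : IsR W a b c) (hab : a ≠ b) (hac : a ≠ c)
    (hbc : b ≠ c) (f : (QB ≃ₐ[ℚ] QB) → Pt W QB) (hf : ∀ σ, f σ + f σ = 0)
    (ι : QB →ₐ[ℚ] Ω) {u v : Ω}
    (hn : (W.baseChange Ω).toAffine.Nonsingular u v) (hv : v ≠ 0)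
    (hR : ∀ (τ : Ω ≃ₐ[K] Ω) (σ : QB ≃ₐ[ℚ] QB),
      (τ.toAlgHom.restrictScalars ℚ).comp ι = ι.comp σ.toAlgHom →
      act W (τ.toAlgHom.restrictScalars ℚ) (.some u v hn) = .some u v hn + act W ι (f σ))
    (e : ℤ) (s : QB) (hs : s ^ 2 = e) (hse : ∀ σ : QB ≃ₐ[ℚ] QB, σ s = s ↔
      IsX (W.baseChange QB) (algebraMap ℚ QB a) (f σ)) (x : K)
    (hx : algebraMap K Ω x - algebraMap ℚ Ω a =
      gf (W.baseChange Ω) (algebraMap ℚ _ a) (algebraMap ℚ _ b)
        (algebraMap ℚ _ c) (.some u v hn) ^ 2) : IsSquare ((x - algebraMap ℚ K a) * (e : K)) := by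
  have hinj : Function.Injective (algebraMap ℚ Ω) := (algebraMap ℚ Ω).injective
  obtain ⟨z, hz⟩ : ∃ z : K, algebraMap K Ω z =
      gf (W.baseChange Ω) (algebraMap ℚ _ a) (algebraMap ℚ _ b) (algebraMap ℚ _ c)
        (.some u v hn) * ι s := by
    apply fix_mem
    intro τ
    obtain ⟨σ, hσ⟩ := exists_restr ι τ
    have hcomm : ∀ w : QB, τ (ι w) = ι (σ w) := fun w => DFunLike.congr_fun hσ w
    have e1 : τ (gf (W.baseChange Ω) (algebraMap ℚ _ a) (algebraMap ℚ _ b) (algebraMap ℚ _ c)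
        (.some u v hn)) = gf (W.baseChange Ω) (algebraMap ℚ _ a) (algebraMap ℚ _ b)
        (algebraMap ℚ _ c) (act W (τ.toAlgHom.restrictScalars ℚ) (.some u v hn)) :=
      act_gf (a := a) (b := b) (c := c) (τ.toAlgHom.restrictScalars ℚ) (.some u v hn)
    rw [map_mul, e1, hR τ σ hσ, hcomm]
    set T := act W ι (f σ) with hT
    have hTT : T + T = 0 := by
      rw [hT, ← map_add, hf, map_zero]
    have hTX : IsX (W.baseChange Ω) (algebraMap ℚ Ω a) T ↔ σ s = s := by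
      rw [hT, act_isX, hse]
    obtain ⟨u', v', hn', e2, hv', h3, h4⟩ := (h.base Ω).sign h2 (hinj.ne hab) (hinj.ne hac)
      (hinj.ne hbc) hn hv hTT
    rw [e2]
    by_cases hX : IsX (W.baseChange Ω) (algebraMap ℚ Ω a) T
    · rw [h3 hX, hTX.1 hX]
    · rw [h4 hX]
      have h5 : σ s ≠ s := fun h' => hX (hTX.2 h')
      have h6 : (σ s) ^ 2 = s ^ 2 := by
        rw [← map_pow, hs, map_intCast]
      rcases sq_eq_sq_iff_eq_or_eq_neg.1 h6 with h7 | h7
      · exact absurd h7 h5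
      · rw [h7, map_neg, neg_mul_neg]
  refine ⟨z, ?_⟩
  apply (algebraMap K Ω).injective
  rw [map_mul, map_mul, hz, map_sub, ← IsScalarTower.algebraMap_apply, hx, map_intCast]
  have h8 : (ι s) ^ 2 = (e : Ω) := by
    rw [← map_pow, hs, map_intCast]
  rw [← h8]
  ring

/-- the local step -/
theorem loc_step [IsAlgClosed Ω] (h2 : (2 : Ω) ≠ 0) (h2K : (2 : K) ≠ 0)
    {W : WeierstrassCurve ℚ} {a b c : ℚ} (h : IsR W a b c) (hab : a ≠ b) (hac : a ≠ c)
    (hbc : b ≠ c) (f : (QB ≃ₐ[ℚ] QB) → Pt W QB) (hf : ∀ σ, f σ + f σ = 0)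
    (hloc : ∀ ι : QB →ₐ[ℚ] Ω, ∃ P : Pt W Ω, ∀ (τ : Ω ≃ₐ[K] Ω) (σ : QB ≃ₐ[ℚ] QB),
      (τ.toAlgHom.restrictScalars ℚ).comp ι = ι.comp σ.toAlgHom →
      act W ι (f σ) = act W (τ.toAlgHom.restrictScalars ℚ) P - P)
    (hpt : ∃ x y : K, y ≠ 0 ∧ y ^ 2 = (x - algebraMap ℚ K a) * (x - algebraMap ℚ K b) *
      (x - algebraMap ℚ K c) ∧ IsSquare (x - algebraMap ℚ K a) ∧
      IsSquare (x - algebraMap ℚ K b) ∧ IsSquare (x - algebraMap ℚ K c))
    (e e' : ℤ) (s s' : QB) (hs : s ^ 2 = e) (hs' : s' ^ 2 = e')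
    (hse : ∀ σ : QB ≃ₐ[ℚ] QB, σ s = s ↔ IsX (W.baseChange QB) (algebraMap ℚ QB a) (f σ))
    (hse' : ∀ σ : QB ≃ₐ[ℚ] QB, σ s' = s' ↔ IsX (W.baseChange QB) (algebraMap ℚ QB b) (f σ)) :
    ∃ x y : K, y ≠ 0 ∧ y ^ 2 = (x - algebraMap ℚ K a) * (x - algebraMap ℚ K b) *
      (x - algebraMap ℚ K c) ∧ IsSquare ((x - algebraMap ℚ K a) * (e : K)) ∧
      IsSquare ((x - algebraMap ℚ K b) * (e' : K)) := by
  have hinj : Function.Injective (algebraMap ℚ Ω) := (algebraMap ℚ Ω).injective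
  have hinjK : Function.Injective (algebraMap ℚ K) := (algebraMap ℚ K).injective
  have hbΩ := h.base Ω
  obtain ⟨ι⟩ := exists_emb Ω
  obtain ⟨P, hP⟩ := hloc ι
  -- a point over `K` with `4 S ≠ 0`
  obtain ⟨S, hSfix, hS4⟩ : ∃ S : Pt W Ω, (∀ τ : Ω ≃ₐ[K] Ω,
      act W (τ.toAlgHom.restrictScalars ℚ) S = S) ∧ (S + S) + (S + S) ≠ 0 := by
    obtain ⟨x1, y1, hy1, hxy1, ⟨r1, q1⟩, ⟨r2, q2⟩, ⟨r3, q3⟩⟩ := hpt
    have hn1 : (W.baseChange K).toAffine.Nonsingular x1 y1 :=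
      (h.base K).nons h2K (hinjK.ne hab) (hinjK.ne hac) (hinjK.ne hbc) hxy1
    have hhalf : ∃ Q : Pt W K, (Affine.Point.some x1 y1 hn1 : Pt W K) = Q + Q := by
      have h3 : y1 ^ 2 = (r1 * r2 * r3) ^ 2 := by
        rw [hxy1, q1, q2, q3]
        ring
      rcases sq_eq_sq_iff_eq_or_eq_neg.1 h3 with h4 | h4
      · exact (h.base K).halve h2K (hinjK.ne hab) (hinjK.ne hac) (hinjK.ne hbc) hn1
          (by rw [q1]; ring) (by rw [q2]; ring) (by rw [q3]; ring) h4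
      · exact (h.base K).halve h2K (hinjK.ne hab) (hinjK.ne hac) (hinjK.ne hbc) (s := -r1) hn1
          (by rw [q1]; ring) (by rw [q2]; ring) (by rw [q3]; ring) (by rw [h4]; ring)
    obtain ⟨Q, hQ⟩ := hhalf
    let j : K →ₐ[ℚ] Ω := IsScalarTower.toAlgHom ℚ K Ω
    refine ⟨act W j Q, fun τ => ?_, ?_⟩
    · rw [act_act]
      congr 1
      congr 1
      ext z
      exact τ.commutes z
    · rw [← map_add, ← map_add, ← hQ]
      intro h0
      rw [← map_zero (act W j)] at h0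
      have h5 := act_inj W j h0
      rw [(h.base K).add_self h2K] at h5
      exact hy1 h5
  -- the point `R`
  obtain ⟨R, hR, hR4⟩ : ∃ R : Pt W Ω, (∀ (τ : Ω ≃ₐ[K] Ω) (σ : QB ≃ₐ[ℚ] QB),
      (τ.toAlgHom.restrictScalars ℚ).comp ι = ι.comp σ.toAlgHom →
      act W (τ.toAlgHom.restrictScalars ℚ) R = R + act W ι (f σ)) ∧ (R + R) + (R + R) ≠ 0 := by
    by_cases h4 : (P + P) + (P + P) = 0
    · refine ⟨P + S, fun τ σ hσ => ?_, ?_⟩
      · rw [map_add, hSfix, hP τ σ hσ]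
        abel
      · have e1 : ((P + S) + (P + S)) + ((P + S) + (P + S)) =
          ((P + P) + (P + P)) + ((S + S) + (S + S)) := by abel
        rw [e1, h4, zero_add]
        exact hS4
    · refine ⟨P, fun τ σ hσ => ?_, h4⟩
      rw [hP τ σ hσ]
      abel
  -- the coordinates
  rcases R with _ | ⟨u, v, hn⟩
  · exact absurd rfl hR4
  have hv : v ≠ 0 := by
    intro hv
    have h5 := (hbΩ.add_self h2 hn).2 hv
    rw [h5] at hR4
    exact hR4 (add_zero 0)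
  obtain ⟨X, Y, hn', e1, hXa⟩ := hbΩ.dup h2 hn hv
  obtain ⟨X', Y', hn'', e1', hXb⟩ := hbΩ.swap.dup h2 hn hv
  rw [e1, Affine.Point.some.injEq] at e1'
  obtain ⟨rfl, rfl⟩ := e1'
  have hY : Y ≠ 0 := by
    intro hY
    apply hR4
    rw [e1]
    exact (hbΩ.add_self h2 hn').2 hY
  have hfix : ∀ τ : Ω ≃ₐ[K] Ω, τ X = X ∧ τ Y = Y := by
    intro τ
    obtain ⟨σ, hσ⟩ := exists_restr ι τ
    have h6 : act W (τ.toAlgHom.restrictScalars ℚ) (.some X Y hn') = .some X Y hn' := by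
      rw [← e1, map_add, hR τ σ hσ]
      have h7 : act W ι (f σ) + act W ι (f σ) = 0 := by
        rw [← map_add, hf, map_zero]
      have h8 : ∀ A B : Pt W Ω, (A + B) + (A + B) = (A + A) + (B + B) := fun A B => by abel
      rw [h8, h7, add_zero]
    rw [act_some, Affine.Point.some.injEq] at h6
    exact h6
  obtain ⟨x, hx⟩ := fix_mem (K := K) X (fun τ => (hfix τ).1)
  obtain ⟨y, hy⟩ := fix_mem (K := K) Y (fun τ => (hfix τ).2)
  refine ⟨x, y, ?_, ?_, ?_, ?_⟩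
  · rintro rfl
    rw [map_zero] at hy
    exact hY hy.symm
  · apply (algebraMap K Ω).injective
    have h9 := (hbΩ.eqn X Y).1 hn'.1
    rw [map_pow, map_mul, map_mul, map_sub, map_sub, map_sub, hx, hy,
      ← IsScalarTower.algebraMap_apply, ← IsScalarTower.algebraMap_apply,
      ← IsScalarTower.algebraMap_apply, h9]
  · refine loc_one h2 h hab hac hbc f hf ι hn hv hR e s hs hse x ?_
    rw [hx]
    exact hXa
  · refine loc_one h2 h.swap hab.symm hbc hac f hf ι hn hv hR e' s' hs' hse' x ?_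
    rw [hx]
    exact hXb

end

end Pool.Agent.TH841.SH
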