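import Mathlib
import Pool.Agent.TH841.SH.Loc
import Pool.Agent.W505.RK.RKB

/-!
# The Selmer homomorphisms, the rank and the Tate-Shafarevich group
-/

set_option autoImplicit false

namespace Pool.Agent.TH841.SH

open WeierstrassCurve

open scoped Classical

open Pool.Agent.W262.SH (QB Pt act IsCoc IsCob LocTriv shaCoc cob Sha)

lemma lc_apply (x : QB) : IsLocallyConstant (fun σ : QB ≃ₐ[ℚ] QB => σ x) := by
  rw [IsLocallyConstant.iff_exists_open]
  intro σ
  have hx : IsIntegral ℚ x := Algebra.IsIntegral.isIntegral x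
  have : FiniteDimensional ℚ (IntermediateField.adjoin ℚ {x}) :=
    IntermediateField.adjoin.finiteDimensional hx
  refine ⟨(fun τ => σ⁻¹ * τ) ⁻¹'
    ((IntermediateField.adjoin ℚ {x}).fixingSubgroup : Set (QB ≃ₐ[ℚ] QB)),
    (IntermediateField.fixingSubgroup_isOpen _).preimage (continuous_const_mul _), ?_, ?_⟩
  · show σ⁻¹ * σ ∈ (IntermediateField.adjoin ℚ {x}).fixingSubgroup
    rw [inv_mul_cancel]
    exact one_mem _
  · intro τ hτ
    have h1 : σ⁻¹ * τ ∈ (IntermediateField.adjoin ℚ {x}).fixingSubgroup := hτ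
    rw [IntermediateField.mem_fixingSubgroup_iff] at h1
    have h2 := h1 x (IntermediateField.mem_adjoin_simple_self ℚ x)
    rw [AlgEquiv.mul_apply] at h2
    have h3 := congrArg σ h2
    rw [← AlgEquiv.mul_apply, mul_inv_cancel, AlgEquiv.one_apply] at h3
    exact h3

lemma lc_act (W : WeierstrassCurve ℚ) (Q : Pt W QB) :
    IsLocallyConstant (fun σ : QB ≃ₐ[ℚ] QB => act W σ.toAlgHom Q) := by
  rcases Q with _ | ⟨x, y, h⟩
  · exact IsLocallyConstant.const _
  · rw [IsLocallyConstant.iff_eventually_eq]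
    intro σ
    have h1 := ((IsLocallyConstant.iff_eventually_eq _).1 (lc_apply x)) σ
    have h2 := ((IsLocallyConstant.iff_eventually_eq _).1 (lc_apply y)) σ
    filter_upwards [h1, h2] with τ h3 h4
    rw [act_some, act_some]
    congr 1

lemma act_mul (W : WeierstrassCurve ℚ) (σ τ : QB ≃ₐ[ℚ] QB) (Q : Pt W QB) :
    act W (σ * τ).toAlgHom Q = act W σ.toAlgHom (act W τ.toAlgHom Q) := by
  rw [act_act]
  rfl

lemma locTriv_cob (W : WeierstrassCurve ℚ) (K : Type) [Field K] [Algebra ℚ K] (Q : Pt W QB) :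
    LocTriv W K (fun σ => act W σ.toAlgHom Q - Q) := by
  intro ι
  refine ⟨act W ι Q, fun τ σ h => ?_⟩
  rw [map_sub, act_act, act_act, h]

lemma evLoc_cob (W : WeierstrassCurve ℚ) (Q : Pt W QB) :
    EvLoc W (fun σ => act W σ.toAlgHom Q - Q) :=
  ⟨fun _ _ => locTriv_cob W _ Q, locTriv_cob W _ Q⟩

lemma lc_cob (W : WeierstrassCurve ℚ) (Q : Pt W QB) :
    IsLocallyConstant (fun σ : QB ≃ₐ[ℚ] QB => act W σ.toAlgHom Q - Q) :=
  (lc_act W Q).sub (IsLocallyConstant.const Q)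

lemma coc_cob (W : WeierstrassCurve ℚ) (Q : Pt W QB) (σ τ : QB ≃ₐ[ℚ] QB) :
    act W (σ * τ).toAlgHom Q - Q = (act W σ.toAlgHom Q - Q) +
      act W σ.toAlgHom (act W τ.toAlgHom Q - Q) := by
  rw [map_sub, act_mul]
  abel

/-- fixed points are rational -/
lemma exists_rat (W : WeierstrassCurve ℚ) : ∃ j : W.toAffine.Point →+ Pt W QB,
    Function.Injective j ∧ (∀ (σ : QB ≃ₐ[ℚ] QB) (P : W.toAffine.Point),
      act W σ.toAlgHom (j P) = j P) ∧
    ∀ P : Pt W QB, (∀ σ : QB ≃ₐ[ℚ] QB, act W σ.toAlgHom P = P) → ∃ q, j q = P := by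
  suffices H : ∀ W' : WeierstrassCurve ℚ, W' = W.baseChange ℚ →
      ∃ j : W'.toAffine.Point →+ Pt W QB, Function.Injective j ∧
      (∀ (σ : QB ≃ₐ[ℚ] QB) (P : W'.toAffine.Point), act W σ.toAlgHom (j P) = j P) ∧
      ∀ P : Pt W QB, (∀ σ : QB ≃ₐ[ℚ] QB, act W σ.toAlgHom P = P) → ∃ q, j q = P by
    apply H W
    apply WeierstrassCurve.ext <;> simp [WeierstrassCurve.baseChange]
  rintro W' rfl
  refine ⟨Affine.Point.map (Algebra.ofId ℚ QB), Affine.Point.map_injective _, ?_, ?_⟩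
  · intro σ P
    rcases P with _ | ⟨x, y, h⟩
    · rfl
    · rw [Affine.Point.map_some, act_some]
      congr 1
      · exact σ.commutes x
      · exact σ.commutes y
  · intro P hP
    rcases P with _ | ⟨X, Y, h⟩
    · exact ⟨0, rfl⟩
    · have hfix : ∀ σ : QB ≃ₐ[ℚ] QB, σ X = X ∧ σ Y = Y := by
        intro σ
        have := hP σ
        rw [act_some, Affine.Point.some.injEq] at this
        exact this
      obtain ⟨x, hx⟩ := fix_mem (K := ℚ) X (fun τ => (hfix τ).1)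
      obtain ⟨y, hy⟩ := fix_mem (K := ℚ) Y (fun τ => (hfix τ).2)
      subst hx hy
      have hn : (W.baseChange ℚ).toAffine.Nonsingular x y :=
        (Affine.baseChange_nonsingular W (f := Algebra.ofId ℚ QB)
          (Algebra.ofId ℚ QB).injective x y).mp h
      exact ⟨.some x y hn, rfl⟩

variable {W : WeierstrassCurve ℚ} {a b c : ℚ}

lemma tors_fix (h : IsR W a b c) {T : Pt W QB} (hT : T + T = 0) (σ : QB ≃ₐ[ℚ] QB) :
    act W σ.toAlgHom T = T := by
  have key : ∀ (e : ℚ) (hn : (W.baseChange QB).toAffine.Nonsingular (algebraMap ℚ QB e) 0),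
      act W σ.toAlgHom (.some (algebraMap ℚ QB e) 0 hn) = .some (algebraMap ℚ QB e) 0 hn := by
    intro e hn
    rw [act_some]
    congr 1
    · exact σ.commutes e
    · exact map_zero σ
  rcases (h.base QB).tors two_ne_zero hT with rfl | ⟨ha, rfl⟩ | ⟨hb, rfl⟩ | ⟨hc, rfl⟩
  · exact map_zero _
  · exact key a ha
  · exact key b hb
  · exact key c hc

lemma sel_le (h : IsR W a b c) : selHom W ≤ shaCoc W := by
  rintro f ⟨h1, h2, h3, h4⟩
  refine ⟨⟨h1, fun σ τ => ?_⟩, h4⟩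
  rw [h3, tors_fix h (h2 τ)]

lemma cob_sel (h : IsR W a b c) (Q : Pt W QB)
    (hQ : ∀ σ : QB ≃ₐ[ℚ] QB, act W σ.toAlgHom Q - Q + (act W σ.toAlgHom Q - Q) = 0) :
    (fun σ : QB ≃ₐ[ℚ] QB => act W σ.toAlgHom Q - Q) ∈ selHom W := by
  refine ⟨lc_cob W Q, hQ, fun σ τ => ?_, evLoc_cob W Q⟩
  show act W (σ * τ).toAlgHom Q - Q = (act W σ.toAlgHom Q - Q) + (act W τ.toAlgHom Q - Q)
  rw [coc_cob, tors_fix h (hQ τ)]

/-- from the Selmer homomorphisms to the Tate-Shafarevich group -/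
noncomputable def toSha (h : IsR W a b c) : selHom W →+ Sha W :=
  (QuotientAddGroup.mk' _).comp (AddSubgroup.inclusion (sel_le h))

lemma toSha_ker (h : IsR W a b c) (f : selHom W) :
    f ∈ (toSha h).ker ↔ ∃ P, ∀ σ, (f : (QB ≃ₐ[ℚ] QB) → Pt W QB) σ = act W σ.toAlgHom P - P := by
  rw [AddMonoidHom.mem_ker]
  show (QuotientAddGroup.mk' _) (AddSubgroup.inclusion (sel_le h) f) = 0 ↔ _
  rw [QuotientAddGroup.mk'_apply, QuotientAddGroup.eq_zero_iff, AddSubgroup.mem_addSubgroupOf]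
  rfl

lemma toSha_range (h : IsR W a b c) (hab : a ≠ b) (hac : a ≠ c) (hbc : b ≠ c) (x : Sha W) :
    x ∈ (toSha h).range ↔ x + x = 0 := by
  constructor
  · rintro ⟨f, rfl⟩
    rw [← map_add]
    have : f + f = 0 := by
      apply Subtype.ext
      funext σ
      exact f.2.2.1 σ
    rw [this, map_zero]
  · intro hx
    obtain ⟨f, rfl⟩ := QuotientAddGroup.mk_surjective x
    rw [← QuotientAddGroup.mk_add, QuotientAddGroup.eq_zero_iff,
      AddSubgroup.mem_addSubgroupOf] at hx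
    obtain ⟨P, hP⟩ := hx
    have hinj : Function.Injective (algebraMap ℚ QB) := (algebraMap ℚ QB).injective
    obtain ⟨Q, rfl⟩ := (h.base QB).div two_ne_zero (hinj.ne hab) (hinj.ne hac) (hinj.ne hbc) P
    obtain ⟨⟨f1, f2⟩, f3⟩ := f.2
    have hP' : ∀ σ, (f : (QB ≃ₐ[ℚ] QB) → Pt W QB) σ + (f : (QB ≃ₐ[ℚ] QB) → Pt W QB) σ =
      act W σ.toAlgHom (Q + Q) - (Q + Q) := hP
    set g : (QB ≃ₐ[ℚ] QB) → Pt W QB :=
      fun σ => (f : (QB ≃ₐ[ℚ] QB) → Pt W QB) σ - (act W σ.toAlgHom Q - Q) with hg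
    have hg2 : ∀ σ, g σ + g σ = 0 := by
      intro σ
      have e1 : g σ + g σ = ((f : (QB ≃ₐ[ℚ] QB) → Pt W QB) σ +
        (f : (QB ≃ₐ[ℚ] QB) → Pt W QB) σ) - ((act W σ.toAlgHom Q + act W σ.toAlgHom Q) -
          (Q + Q)) := by
        rw [hg]
        simp only
        abel
      rw [e1, hP', map_add, sub_self]
    have hgsel : g ∈ selHom W := by
      refine ⟨f1.sub (lc_cob W Q), hg2, fun σ τ => ?_, ?_⟩
      · have e2 := tors_fix h (hg2 τ) σ
        have e3 : act W σ.toAlgHom (g τ) = act W σ.toAlgHom ((f : (QB ≃ₐ[ℚ] QB) → Pt W QB) τ) -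
            act W σ.toAlgHom (act W τ.toAlgHom Q - Q) := by
          rw [hg]
          simp only
          rw [map_sub]
        have e4 : g (σ * τ) = (f : (QB ≃ₐ[ℚ] QB) → Pt W QB) (σ * τ) -
          (act W (σ * τ).toAlgHom Q - Q) := rfl
        rw [← e2, e3, e4, f2, coc_cob]
        rw [hg]
        simp only
        abel
      · have e5 : g = (f : (QB ≃ₐ[ℚ] QB) → Pt W QB) +
          -(fun σ : QB ≃ₐ[ℚ] QB => act W σ.toAlgHom Q - Q) := by
          funext σ
          rw [hg]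
          simp only [Pi.add_apply, Pi.neg_apply]
          abel
        rw [e5]
        exact EvLoc.add f3 (evLoc_cob W Q).neg
    refine ⟨⟨g, hgsel⟩, ?_⟩
    show (QuotientAddGroup.mk' _) (AddSubgroup.inclusion (sel_le h) ⟨g, hgsel⟩) =
      QuotientAddGroup.mk f
    rw [QuotientAddGroup.mk'_apply, QuotientAddGroup.eq, AddSubgroup.mem_addSubgroupOf]
    refine ⟨Q, fun σ => ?_⟩
    show -g σ + (f : (QB ≃ₐ[ℚ] QB) → Pt W QB) σ = _
    rw [hg]
    simp only
    abel

/-- **The rank, the Tate-Shafarevich group and the Selmer homomorphisms.** -/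
theorem card_le (h : IsR W a b c) (hab : a ≠ b) (hac : a ≠ c) (hbc : b ≠ c)
    (hfg : AddGroup.FG W.toAffine.Point) [Finite (selHom W)] :
    Finite {x : Sha W // x + x = 0} ∧
    2 ^ Module.finrank ℤ W.toAffine.Point * Nat.card {x : Sha W // x + x = 0} ≤
      Nat.card (selHom W) := by
  have e1 : Nat.card {x : Sha W // x + x = 0} = Nat.card (toSha h).range :=
    Nat.card_congr (Equiv.subtypeEquivRight (fun x => (toSha_range h hab hac hbc x).symm))
  have hfr : Finite (toSha h).range := Finite.of_surjective _ (toSha h).rangeRestrict_surjective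
  have e2 : Nat.card (selHom W) = Nat.card (toSha h).range * Nat.card (toSha h).ker := by
    rw [AddSubgroup.card_eq_card_quotient_mul_card_addSubgroup (toSha h).ker]
    congr 1
    exact Nat.card_congr (QuotientAddGroup.quotientKerEquivRange (toSha h)).toEquiv
  refine ⟨Finite.of_equiv _ (Equiv.subtypeEquivRight (fun x => toSha_range h hab hac hbc x)), ?_⟩
  rw [e1, e2, mul_comm]
  refine Nat.mul_le_mul_left _ ?_
  obtain ⟨j, hj, hjσ, hjf⟩ := exists_rat W
  have hinj : Function.Injective (algebraMap ℚ QB) := (algebraMap ℚ QB).injective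
  have : Fintype (toSha h).ker := Fintype.ofFinite _
  let R : (toSha h).ker → W.toAffine.Point → Prop := fun f g =>
    ∃ Q : Pt W QB, Q + Q = j g ∧ ∀ σ, (f.1 : (QB ≃ₐ[ℚ] QB) → Pt W QB) σ =
      act W σ.toAlgHom Q - Q
  let T : Finset W.toAffine.Point :=
    Finset.univ.image (fun f : (toSha h).ker => if hd : ∃ g, R f g then hd.choose else 0)
  have hT : T.card ≤ Nat.card (toSha h).ker := by
    rw [Nat.card_eq_fintype_card]
    exact Finset.card_image_le.trans_eq Finset.card_univ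
  refine Pool.Agent.W505.RK.rkb _ hfg _ T hT (fun g => ?_)
  obtain ⟨Q, hQ⟩ := (h.base QB).div two_ne_zero (hinj.ne hab) (hinj.ne hac) (hinj.ne hbc) (j g)
  have hsel : (fun σ : QB ≃ₐ[ℚ] QB => act W σ.toAlgHom Q - Q) ∈ selHom W := by
    apply cob_sel h
    intro σ
    have e3 : act W σ.toAlgHom Q - Q + (act W σ.toAlgHom Q - Q) =
      (act W σ.toAlgHom Q + act W σ.toAlgHom Q) - (Q + Q) := by abel
    rw [e3, ← map_add, ← hQ, hjσ, sub_self]
  have hker : (⟨_, hsel⟩ : selHom W) ∈ (toSha h).ker := by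
    rw [toSha_ker]
    exact ⟨Q, fun σ => rfl⟩
  set f : (toSha h).ker := ⟨⟨_, hsel⟩, hker⟩ with hf
  have hex : ∃ g', R f g' := ⟨g, Q, hQ.symm, fun σ => rfl⟩
  obtain ⟨Q', hQ', hf'⟩ := hex.choose_spec
  refine ⟨hex.choose, ?_, ?_⟩
  · refine Finset.mem_image.2 ⟨f, Finset.mem_univ _, ?_⟩
    rw [dif_pos hex]
  · have hfix : ∀ σ : QB ≃ₐ[ℚ] QB, act W σ.toAlgHom (Q - Q') = Q - Q' := by
      intro σ
      have e4 : act W σ.toAlgHom Q - Q = act W σ.toAlgHom Q' - Q' := hf' σ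
      rw [map_sub]
      have e5 : act W σ.toAlgHom Q = act W σ.toAlgHom Q' - Q' + Q := by
        rw [← e4]
        abel
      rw [e5]
      abel
    obtain ⟨q, hq⟩ := hjf _ hfix
    refine ⟨q, hj ?_⟩
    rw [map_add, map_add, hq, ← hQ', hQ]
    abel

end Pool.Agent.TH841.SH
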