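import Mathlib
import Pool.Agent.TH841.SH.Loc
import Pool.Agent.W402.FK.RKS

/-!
# The Selmer homomorphisms and square classes
-/

set_option autoImplicit false

namespace Pool.Agent.TH841.SH

open WeierstrassCurve

open scoped Classical

open Pool.Agent.W262.SH (QB Pt act IsCoc IsCob LocTriv shaCoc cob Sha)

/-- the local condition for the pair `(d1, d2)` of square classes -/
def LocC (K : Type) [Field K] (a b c d1 d2 : ℤ) : Prop :=
  ∃ x y : K, y ≠ 0 ∧ y ^ 2 = (x - a) * (x - b) * (x - c) ∧ IsSquare ((x - a) * d1) ∧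
    IsSquare ((x - b) * d2)

/-- the 2-Selmer group of `y² = (x - a) (x - b) (x - c)` as a set of pairs of squarefree integers -/
def SelG (a b c : ℤ) : Set (ℤ × ℤ) :=
  {d | Squarefree d.1 ∧ Squarefree d.2 ∧ LocC ℝ a b c d.1 d.2 ∧
    ∀ (p : ℕ) [Fact p.Prime], LocC ℚ_[p] a b c d.1 d.2}

lemma pt_real (a b c : ℤ) : ∃ x y : ℝ, y ≠ 0 ∧ y ^ 2 = (x - a) * (x - b) * (x - c) ∧
    IsSquare (x - a) ∧ IsSquare (x - b) ∧ IsSquare (x - c) := by
  set x : ℝ := |(a : ℝ)| + |(b : ℝ)| + |(c : ℝ)| + 1 with hx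
  have a1 := le_abs_self (a : ℝ)
  have a2 := le_abs_self (b : ℝ)
  have a3 := le_abs_self (c : ℝ)
  have b1 := abs_nonneg (a : ℝ)
  have b2 := abs_nonneg (b : ℝ)
  have b3 := abs_nonneg (c : ℝ)
  have p1 : 0 < x - a := by linarith
  have p2 : 0 < x - b := by linarith
  have p3 : 0 < x - c := by linarith
  have hp : 0 < (x - a) * (x - b) * (x - c) := by positivity
  exact ⟨x, Real.sqrt ((x - a) * (x - b) * (x - c)), (Real.sqrt_pos.2 hp).ne', Real.sq_sqrt hp.le,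
    ⟨Real.sqrt (x - a), (Real.mul_self_sqrt p1.le).symm⟩,
    ⟨Real.sqrt (x - b), (Real.mul_self_sqrt p2.le).symm⟩,
    ⟨Real.sqrt (x - c), (Real.mul_self_sqrt p3.le).symm⟩⟩

lemma pt_pad (p : ℕ) [hp : Fact p.Prime] (a b c : ℤ) : ∃ x y : ℚ_[p], y ≠ 0 ∧
    y ^ 2 = (x - a) * (x - b) * (x - c) ∧
    IsSquare (x - a) ∧ IsSquare (x - b) ∧ IsSquare (x - c) := by
  obtain ⟨r1, n1, q1⟩ := Pool.Agent.W402.FK.hens' p a
  obtain ⟨r2, n2, q2⟩ := Pool.Agent.W402.FK.hens' p b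
  obtain ⟨r3, n3, q3⟩ := Pool.Agent.W402.FK.hens' p c
  refine ⟨1 / (2 * p) ^ 2, r1 * r2 * r3, mul_ne_zero (mul_ne_zero n1 n2) n3, ?_, ⟨r1, ?_⟩,
    ⟨r2, ?_⟩, ⟨r3, ?_⟩⟩
  · rw [← q1, ← q2, ← q3]
    ring
  · rw [← q1]
    ring
  · rw [← q2]
    ring
  · rw [← q3]
    ring

/-- the local conditions for a Selmer homomorphism -/
lemma locC {K : Type} [Field K] [Algebra ℚ K] (h2 : (2 : AlgebraicClosure K) ≠ 0)
    (h2K : (2 : K) ≠ 0) [IsGalois K (AlgebraicClosure K)]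
    {W : WeierstrassCurve ℚ} {a b c : ℤ} (h : IsR W (a : ℚ) (b : ℚ) (c : ℚ)) (hab : a ≠ b)
    (hac : a ≠ c) (hbc : b ≠ c) (f : (QB ≃ₐ[ℚ] QB) → Pt W QB) (hf : ∀ σ, f σ + f σ = 0)
    (hloc : LocTriv W K f)
    (hpt : ∃ x y : K, y ≠ 0 ∧ y ^ 2 = (x - a) * (x - b) * (x - c) ∧
      IsSquare (x - a) ∧ IsSquare (x - b) ∧ IsSquare (x - c))
    (e e' : ℤ) (s s' : QB) (hs : s ^ 2 = e) (hs' : s' ^ 2 = e')
    (hse : ∀ σ : QB ≃ₐ[ℚ] QB, σ s = s ↔ IsX (W.baseChange QB) (algebraMap ℚ QB a) (f σ))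
    (hse' : ∀ σ : QB ≃ₐ[ℚ] QB, σ s' = s' ↔ IsX (W.baseChange QB) (algebraMap ℚ QB b) (f σ)) :
    LocC K a b c e e' := by
  have hc : ∀ n : ℤ, algebraMap ℚ K (n : ℚ) = (n : K) := fun n => map_intCast _ n
  have := loc_step (K := K) (Ω := AlgebraicClosure K) h2 h2K h (by exact_mod_cast hab)
    (by exact_mod_cast hac) (by exact_mod_cast hbc) f hf hloc
    (by rw [hc, hc, hc]; exact hpt) e e' s s' hs hs' hse hse'
  rw [hc, hc, hc] at this
  exact this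

lemma bool_xor {p q r : Prop} (h : r ↔ (p ↔ q)) :
    decide (¬ r) = xor (decide (¬ p)) (decide (¬ q)) := by
  by_cases hp : p <;> by_cases hq : q <;> simp [h, hp, hq]

/-- the characters of a homomorphism to the 2-torsion -/
lemma exists_char' {W : WeierstrassCurve ℚ} {a b c : ℚ} (h : IsR W a b c) (hab : a ≠ b)
    (hac : a ≠ c) (hbc : b ≠ c) (f : (QB ≃ₐ[ℚ] QB) → Pt W QB) (h1 : IsLocallyConstant f)
    (h2 : ∀ σ, f σ + f σ = 0) (h3 : ∀ σ τ, f (σ * τ) = f σ + f τ) :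
    ∃ e : ℤ, Squarefree e ∧ ∀ s : QB, s ^ 2 = e → ∀ σ : QB ≃ₐ[ℚ] QB, σ s = s ↔
      IsX (W.baseChange QB) (algebraMap ℚ QB a) (f σ) := by
  have hinj : Function.Injective (algebraMap ℚ QB) := (algebraMap ℚ QB).injective
  obtain ⟨e, he, hs⟩ := kum (fun σ => decide (¬ IsX (W.baseChange QB) (algebraMap ℚ QB a) (f σ)))
    (h1.comp (fun T => decide (¬ IsX (W.baseChange QB) (algebraMap ℚ QB a) T))) (by
      intro σ τ
      have h4 := (h.base QB).isX_add two_ne_zero (hinj.ne hab) (hinj.ne hac) (hinj.ne hbc)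
        (h2 σ) (h2 τ)
      rw [← h3] at h4
      exact bool_xor h4)
  refine ⟨e, he, fun s hs' σ => ?_⟩
  rw [hs s hs' σ, decide_eq_false_iff_not, not_not]

/-- the characters of a Selmer homomorphism -/
lemma exists_char {W : WeierstrassCurve ℚ} {a b c : ℚ} (h : IsR W a b c) (hab : a ≠ b)
    (hac : a ≠ c) (hbc : b ≠ c) (f : (QB ≃ₐ[ℚ] QB) → Pt W QB) (hf : f ∈ selHom W) :
    ∃ e : ℤ, Squarefree e ∧ ∀ s : QB, s ^ 2 = e → ∀ σ : QB ≃ₐ[ℚ] QB, σ s = s ↔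
      IsX (W.baseChange QB) (algebraMap ℚ QB a) (f σ) :=
  exists_char' h hab hac hbc f hf.1 hf.2.1 hf.2.2.1

/-- **The Selmer homomorphisms and square classes.** -/
theorem sel_inj {W : WeierstrassCurve ℚ} {a b c : ℤ} (h : IsR W (a : ℚ) (b : ℚ) (c : ℚ))
    (hab : a ≠ b) (hac : a ≠ c) (hbc : b ≠ c) :
    ∃ Φ : selHom W → ℤ × ℤ, Function.Injective Φ ∧ ∀ f, Φ f ∈ SelG a b c := by
  have qab : (a : ℚ) ≠ b := by exact_mod_cast hab
  have qac : (a : ℚ) ≠ c := by exact_mod_cast hac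
  have qbc : (b : ℚ) ≠ c := by exact_mod_cast hbc
  have H1 := fun f : selHom W => exists_char h qab qac qbc f.1 f.2
  have H2 := fun f : selHom W => exists_char h.swap qab.symm qbc qac f.1 f.2
  choose E hE hE' using H1
  choose F hF hF' using H2
  refine ⟨fun f => (E f, F f), ?_, ?_⟩
  · intro f g hfg
    simp only [Prod.mk.injEq] at hfg
    obtain ⟨h1, h2⟩ := hfg
    apply Subtype.ext
    funext σ
    obtain ⟨s, hs⟩ := IsAlgClosed.exists_pow_nat_eq ((E f : ℤ) : QB) (n := 2) (by norm_num)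
    obtain ⟨t, ht⟩ := IsAlgClosed.exists_pow_nat_eq ((F f : ℤ) : QB) (n := 2) (by norm_num)
    have hinj : Function.Injective (algebraMap ℚ QB) := (algebraMap ℚ QB).injective
    refine (h.base QB).ext two_ne_zero (hinj.ne qab) (hinj.ne qac) (hinj.ne qbc) (f.2.2.1 σ)
      (g.2.2.1 σ) ?_ ?_
    · rw [← hE' f s hs σ, ← hE' g s (by rw [hs, h1]) σ]
    · rw [← hF' f t ht σ, ← hF' g t (by rw [ht, h2]) σ]
  · intro f
    obtain ⟨s, hs⟩ := IsAlgClosed.exists_pow_nat_eq ((E f : ℤ) : QB) (n := 2) (by norm_num)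
    obtain ⟨t, ht⟩ := IsAlgClosed.exists_pow_nat_eq ((F f : ℤ) : QB) (n := 2) (by norm_num)
    refine ⟨hE f, hF f, ?_, fun p _ => ?_⟩
    · exact locC two_ne_zero two_ne_zero h hab hac hbc f.1 f.2.2.1 f.2.2.2.2.2 (pt_real a b c)
        (E f) (F f) s t hs ht (hE' f s hs) (hF' f t ht)
    · exact locC two_ne_zero two_ne_zero h hab hac hbc f.1 f.2.2.1 (f.2.2.2.2.1 p) (pt_pad p a b c)
        (E f) (F f) s t hs ht (hE' f s hs) (hF' f t ht)

end Pool.Agent.TH841.SH
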