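import Mathlib
import Pool.Agent.TH841.SH.Sel
import Pool.Agent.TH841.SH.Grp

/-!
# The rank and the Tate-Shafarevich group, bounded by the 2-Selmer group
-/

set_option autoImplicit false

namespace Pool.Agent.TH841.SH

open WeierstrassCurve

open scoped Classical

open Pool.Agent.W262.SH (QB Pt act IsCoc IsCob LocTriv shaCoc cob Sha)

open Pool.Agent.H437R2.Man.MW (crv pt_fg)

/-- **Main theorem for one curve.** -/
theorem main (W : WeierstrassCurve ℚ) (a b c : ℤ) (h : IsR W (a : ℚ) (b : ℚ) (c : ℚ))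
    (hab : a ≠ b) (hac : a ≠ c) (hbc : b ≠ c) (hS : (SelG a b c).Finite) :
    Finite {x : Sha W // x + x = 0} ∧
    2 ^ Module.finrank ℤ W.toAffine.Point * Nat.card {x : Sha W // x + x = 0} ≤
      (SelG a b c).ncard := by
  have qab : (a : ℚ) ≠ b := by exact_mod_cast hab
  have qac : (a : ℚ) ≠ c := by exact_mod_cast hac
  have qbc : (b : ℚ) ≠ c := by exact_mod_cast hbc
  obtain ⟨Φ, hΦ, hΦS⟩ := sel_inj h hab hac hbc
  have hfin : Finite (SelG a b c) := hS
  have hfin' : Finite (selHom W) :=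
    Finite.of_injective (fun f => (⟨Φ f, hΦS f⟩ : SelG a b c))
      (fun f g hfg => hΦ (congrArg Subtype.val hfg))
  have hcard : Nat.card (selHom W) ≤ (SelG a b c).ncard := by
    rw [← Nat.card_coe_set_eq]
    exact Nat.card_le_card_of_injective (fun f => (⟨Φ f, hΦS f⟩ : SelG a b c))
      (fun f g hfg => hΦ (congrArg Subtype.val hfg))
  have hW : W = crv (-(a : ℚ)) (-(b : ℚ)) (-(c : ℚ)) := by
    apply WeierstrassCurve.ext
    · rw [h.h1]
      rfl
    · rw [h.h2]
      show _ = -(a : ℚ) + -(b : ℚ) + -(c : ℚ)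
      ring
    · rw [h.h3]
      rfl
    · rw [h.h4]
      show _ = -(a : ℚ) * -(b : ℚ) + -(a : ℚ) * -(c : ℚ) + -(b : ℚ) * -(c : ℚ)
      ring
    · rw [h.h6]
      show _ = -(a : ℚ) * -(b : ℚ) * -(c : ℚ)
      ring
  have hfg : AddGroup.FG W.toAffine.Point := by
    rw [hW]
    exact pt_fg (fun h => qab (neg_injective h)) (fun h => qac (neg_injective h))
      (fun h => qbc (neg_injective h))
  obtain ⟨h1, h2⟩ := card_le h qab qac qbc hfg
  exact ⟨h1, h2.trans hcard⟩

end Pool.Agent.TH841.SH
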