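import Mathlib
import Pool.Agent.TH841.SH.Main
import Pool.Agent.TH841.SH.Pw

/-!
# Comparison of the 2-Selmer groups
-/

set_option autoImplicit false

namespace Pool.Agent.TH841.SH

open WeierstrassCurve

open scoped Classical

open Pool.Agent.W262.SH (QB Pt act IsCoc IsCob LocTriv shaCoc cob Sha)
open Pool.Agent.W307.SE Pool.Agent.W307.RT
open Pool.Agent.W402.FK (coef dist roots cub)

lemma cls3 (K : Type) [Field K] [CharZero K] {A B e1 e2 e3 : ℤ}
    (h : ∀ x : ℤ, x ^ 3 + A * x + B = (x - e1) * (x - e2) * (x - e3)) {d1 d2 d3 : ℤ} (h1 : d1 ≠ 0)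
    (h2 : d2 ≠ 0) (h3 : IsSquare (((d1 * d2 : ℤ) : ℚ) * d3)) (d : ℤ → ℤ) (hd1 : d e1 = d1)
    (hd2 : d e2 = d2) (hd3 : d e3 = d3) (hL : LocC K e1 e2 e3 d1 d2) : LocR K A B d := by
  obtain ⟨x, y, hy, hxy, ⟨r1, q1⟩, ⟨r2, q2⟩⟩ := hL
  have hx1 : x - e1 ≠ 0 := by
    intro h0
    rw [h0, zero_mul, zero_mul] at hxy
    exact hy (pow_eq_zero_iff two_ne_zero |>.1 hxy)
  have hx2 : x - e2 ≠ 0 := by
    intro h0
    rw [h0, mul_zero, zero_mul] at hxy
    exact hy (pow_eq_zero_iff two_ne_zero |>.1 hxy)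
  refine ⟨x, y, hy, ?_, ?_⟩
  · rw [hxy, cub K A B e1 e2 e3 h]
  · intro e he
    rcases roots A B e1 e2 e3 h e he with rfl | rfl | rfl
    · rw [hd1]
      exact ⟨r1, q1⟩
    · rw [hd2]
      exact ⟨r2, q2⟩
    · rw [hd3]
      obtain ⟨m, hm⟩ := h3
      have hm' := congrArg (Rat.cast : ℚ → K) hm
      push_cast at hm'
      have k1 : (d1 : K) ≠ 0 := by exact_mod_cast h1
      have k2 : (d2 : K) ≠ 0 := by exact_mod_cast h2
      have n1 : r1 ≠ 0 := by
        rintro rfl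
        rw [mul_zero] at q1
        exact mul_ne_zero hx1 k1 q1
      have n2 : r2 ≠ 0 := by
        rintro rfl
        rw [mul_zero] at q2
        exact mul_ne_zero hx2 k2 q2
      refine ⟨y * m / (r1 * r2), ?_⟩
      have e4 : (r1 * r2) * (r1 * r2) = ((x - e1) * d1) * ((x - e2) * d2) := by
        rw [q1, q2]
        ring
      rw [div_mul_div_comm, e4, eq_div_iff (mul_ne_zero (mul_ne_zero hx1 k1)
        (mul_ne_zero hx2 k2))]
      calc (x - (e : K)) * d3 * ((x - e1) * d1 * ((x - e2) * d2))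
          = ((x - e1) * (x - e2) * (x - e)) * (d1 * d2 * d3) := by ring
        _ = y ^ 2 * (m * m) := by rw [← hxy, hm']
        _ = _ := by ring

/-- comparison of the descriptions of the 2-Selmer group -/
lemma selG_le {A B e1 e2 e3 : ℤ} (hD : 4 * A ^ 3 + 27 * B ^ 2 ≠ 0)
    (h : ∀ x : ℤ, x ^ 3 + A * x + B = (x - e1) * (x - e2) * (x - e3))
    (hS : (SelR A B).Finite) :
    (SelG e1 e2 e3).Finite ∧ (SelG e1 e2 e3).ncard ≤ (SelR A B).ncard := by
  obtain ⟨d12, d13, d23⟩ := dist A B e1 e2 e3 hD h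
  have hex : ∀ t : ℤ × ℤ, ∃ d3 : ℤ, (t ∈ SelG e1 e2 e3 → Squarefree d3 ∧
      IsSquare (((t.1 * t.2 : ℤ) : ℚ) * d3)) := by
    intro t
    by_cases ht : t ∈ SelG e1 e2 e3
    · have h0 : ((t.1 * t.2 : ℤ) : ℚ) ≠ 0 := by
        exact_mod_cast mul_ne_zero ht.1.ne_zero ht.2.1.ne_zero
      obtain ⟨d3, h1, h2⟩ := Pool.Agent.W214.RK2.exists_rep _ h0
      exact ⟨d3, fun _ => ⟨h1, h2⟩⟩
    · exact ⟨1, fun h => absurd h ht⟩
  choose g hg using hex
  let F : ℤ × ℤ → (ℤ → ℤ) := fun t e => if e = e1 then t.1 else if e = e2 then t.2 else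
    if e = e3 then g t else 1
  have hF1 : ∀ t, F t e1 = t.1 := fun t => if_pos rfl
  have hF2 : ∀ t, F t e2 = t.2 := fun t => by
    show (if e2 = e1 then t.1 else if e2 = e2 then t.2 else if e2 = e3 then g t else 1) = t.2
    rw [if_neg d12.symm, if_pos rfl]
  have hF3 : ∀ t, F t e3 = g t := fun t => by
    show (if e3 = e1 then t.1 else if e3 = e2 then t.2 else if e3 = e3 then g t else 1) = g t
    rw [if_neg d13.symm, if_neg d23.symm, if_pos rfl]
  have hFi : Function.Injective F := by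
    intro t t' htt
    ext
    · rw [← hF1 t, htt, hF1]
    · rw [← hF2 t, htt, hF2]
  have hmaps : ∀ t ∈ SelG e1 e2 e3, F t ∈ SelR A B := by
    intro t ht
    obtain ⟨g1, g2⟩ := hg t ht
    refine ⟨?_, ?_, ?_, fun p _ => ?_⟩
    · intro e
      show Squarefree (if e = e1 then t.1 else if e = e2 then t.2 else if e = e3 then g t else 1)
      split_ifs
      · exact ht.1
      · exact ht.2.1
      · exact g1
      · exact squarefree_one
    · intro e he
      show (if e = e1 then t.1 else if e = e2 then t.2 else if e = e3 then g t else 1) = 1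
      rw [if_neg, if_neg, if_neg]
      · rintro rfl
        apply he
        rw [h]
        ring
      · rintro rfl
        apply he
        rw [h]
        ring
      · rintro rfl
        apply he
        rw [h]
        ring
    · exact cls3 ℝ h ht.1.ne_zero ht.2.1.ne_zero g2 (F t) (hF1 t) (hF2 t) (hF3 t) ht.2.2.1
    · exact cls3 ℚ_[p] h ht.1.ne_zero ht.2.1.ne_zero g2 (F t) (hF1 t) (hF2 t) (hF3 t)
        (ht.2.2.2 p)
  refine ⟨Set.Finite.of_injOn hmaps hFi.injOn hS,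
    Set.ncard_le_ncard_of_injOn F hmaps hFi.injOn hS⟩

/-- the curve `y² = x³ + A x + B` -/
lemma isR_Sh {A B e1 e2 e3 : ℤ}
    (h : ∀ x : ℤ, x ^ 3 + A * x + B = (x - e1) * (x - e2) * (x - e3)) :
    IsR (Sh A B) (e1 : ℚ) (e2 : ℚ) (e3 : ℚ) := by
  obtain ⟨hs, hA, hB⟩ := coef A B e1 e2 e3 h
  have hs' : (e1 : ℚ) + e2 + e3 = 0 := by exact_mod_cast congrArg (Int.cast : ℤ → ℚ) hs
  refine ⟨rfl, ?_, rfl, ?_, ?_⟩
  · show (0 : ℚ) = _
    rw [hs', neg_zero]
  · show (A : ℚ) = _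
    rw [hA]
    push_cast
    ring
  · show (B : ℚ) = _
    rw [hB]
    push_cast
    ring

/-- **The rank and the Tate-Shafarevich group of `y² = x³ + A x + B`.** -/
theorem sha_selR {A B e1 e2 e3 : ℤ} (hD : 4 * A ^ 3 + 27 * B ^ 2 ≠ 0)
    (h : ∀ x : ℤ, x ^ 3 + A * x + B = (x - e1) * (x - e2) * (x - e3))
    (hS : (SelR A B).Finite) :
    Finite {x : Sha (Sh A B) // x + x = 0} ∧
    2 ^ Module.finrank ℤ (Sh A B).toAffine.Point * Nat.card {x : Sha (Sh A B) // x + x = 0} ≤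
      (SelR A B).ncard := by
  obtain ⟨d12, d13, d23⟩ := dist A B e1 e2 e3 hD h
  obtain ⟨h1, h2⟩ := selG_le hD h hS
  obtain ⟨h3, h4⟩ := main (Sh A B) e1 e2 e3 (isR_Sh h) d12 d13 d23 h1
  exact ⟨h3, h4.trans h2⟩

end Pool.Agent.TH841.SH
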