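import Mathlib
import Pool.Agent.TH841.SH.ShaDef
import Pool.Agent.W262.SH.Stm

/-!
# The two definitions of the Tate-Shafarevich group agree
-/

set_option autoImplicit false

namespace Pool.Agent.TH841.SH.D

open WeierstrassCurve

lemma loc_iff (W : WeierstrassCurve ℚ) (K : Type) [Field K] [Algebra ℚ K] (f : Coch W) :
    LocTriv W K f ↔ Pool.Agent.W262.SH.LocTriv W K f := by
  constructor
  · intro h ι
    obtain ⟨P, hP⟩ := h ι
    refine ⟨P, fun τ σ hτ => hP τ σ fun x => DFunLike.congr_fun hτ x⟩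
  · intro h ι
    obtain ⟨P, hP⟩ := h ι
    refine ⟨P, fun τ σ hτ => hP τ σ (AlgHom.ext hτ)⟩

lemma sha_iff (W : WeierstrassCurve ℚ) (f : Coch W) :
    f ∈ shaCoc W ↔ f ∈ Pool.Agent.W262.SH.shaCoc W := by
  constructor
  · rintro ⟨h1, h2, h3⟩
    exact ⟨h1, fun p _ => (loc_iff W _ f).1 (h2 p), (loc_iff W _ f).1 h3⟩
  · rintro ⟨h1, h2, h3⟩
    exact ⟨h1, fun p _ => (loc_iff W _ f).2 (h2 p), (loc_iff W _ f).2 h3⟩

/-- the cocycles -/
noncomputable def eCoc (W : WeierstrassCurve ℚ) : shaCoc W ≃+ Pool.Agent.W262.SH.shaCoc W where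
  toFun f := ⟨f.1, (sha_iff W f.1).1 f.2⟩
  invFun f := ⟨f.1, (sha_iff W f.1).2 f.2⟩
  left_inv _ := rfl
  right_inv _ := rfl
  map_add' _ _ := rfl

open scoped Classical in
/-- the Tate-Shafarevich groups -/
noncomputable def eSha (W : WeierstrassCurve ℚ) : Sha W ≃+ Pool.Agent.W262.SH.Sha W :=
  QuotientAddGroup.congr ((cob W).addSubgroupOf (shaCoc W))
    ((Pool.Agent.W262.SH.cob W).addSubgroupOf (Pool.Agent.W262.SH.shaCoc W)) (eCoc W) (by
    ext f
    constructor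
    · rintro ⟨g, hg, rfl⟩
      exact hg
    · intro hf
      exact ⟨(eCoc W).symm f, hf, rfl⟩)

end Pool.Agent.TH841.SH.D
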