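import Mathlib
import Pool.Agent.TH841.SH.SelR
import Pool.Agent.TH841.SH.Tr

/-!
# The weight `2 ^ rank * #Ш[2 ^ k] ^ (1 / k)`
-/

set_option autoImplicit false

namespace Pool.Agent.TH841.SH

open WeierstrassCurve

open scoped Classical

open Pool.Agent.W307.SE Pool.Agent.W307.RT

/-- `2 ^ rank * #Ш[2]` is at most `N` -/
def Bd (W : WeierstrassCurve ℚ) (N : ℝ) : Prop :=
  Finite {x : Pool.Agent.W262.SH.Sha W // x + x = 0} ∧
    (2 : ℝ) ^ Module.finrank ℤ W.toAffine.Point *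
      Nat.card {x : Pool.Agent.W262.SH.Sha W // x + x = 0} ≤ N

/-- the elements killed by `n` -/
noncomputable def eTor (W : WeierstrassCurve ℚ) (n : ℕ) :
    D.ShaTor W n ≃ {x : Pool.Agent.W262.SH.Sha W // n • x = 0} :=
  (D.eSha W).toEquiv.subtypeEquiv (fun x => by
    show n • x = 0 ↔ n • (D.eSha W) x = 0
    rw [← map_nsmul, EmbeddingLike.map_eq_zero_iff])

lemma Bd.fin {W : WeierstrassCurve ℚ} {N : ℝ} (h : Bd W N) (k : ℕ) :
    Finite (D.ShaTor W (2 ^ k)) := by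
  have := (card_tor h.1 k).1
  exact Finite.of_equiv _ (eTor W (2 ^ k)).symm

lemma Bd.card {W : WeierstrassCurve ℚ} {N : ℝ} (h : Bd W N) (k : ℕ) :
    Nat.card (D.ShaTor W (2 ^ k)) ≤
      Nat.card {x : Pool.Agent.W262.SH.Sha W // x + x = 0} ^ k := by
  rw [Nat.card_congr (eTor W (2 ^ k))]
  exact (card_tor h.1 k).2

/-- the weight `2 ^ rank * #Ш[2 ^ k] ^ (1 / k)` -/
noncomputable def wt (W : WeierstrassCurve ℚ) (k : ℕ) : ℝ :=
  (2 : ℝ) ^ D.rk W * (Nat.card (D.ShaTor W (2 ^ k)) : ℝ) ^ ((1 : ℝ) / k)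

lemma wt_nonneg (W : WeierstrassCurve ℚ) (k : ℕ) : 0 ≤ wt W k := by
  unfold wt
  positivity

lemma Bd.wt_le {W : WeierstrassCurve ℚ} {N : ℝ} (h : Bd W N) {k : ℕ} (hk : 1 ≤ k) :
    wt W k ≤ N := by
  refine le_trans ?_ h.2
  unfold wt
  refine mul_le_mul_of_nonneg_left ?_ (by positivity)
  have h1 : ((Nat.card (D.ShaTor W (2 ^ k)) : ℕ) : ℝ) ≤
      (Nat.card {x : Pool.Agent.W262.SH.Sha W // x + x = 0} : ℝ) ^ k := by
    exact_mod_cast h.card k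
  have hk' : (k : ℝ) ≠ 0 := by exact_mod_cast (by omega : k ≠ 0)
  calc ((Nat.card (D.ShaTor W (2 ^ k)) : ℕ) : ℝ) ^ ((1 : ℝ) / k)
      ≤ ((Nat.card {x : Pool.Agent.W262.SH.Sha W // x + x = 0} : ℝ) ^ k) ^ ((1 : ℝ) / k) :=
        Real.rpow_le_rpow (Nat.cast_nonneg _) h1 (by positivity)
    _ = _ := by
        rw [← Real.rpow_natCast, ← Real.rpow_mul (Nat.cast_nonneg _), mul_one_div_cancel hk',
          Real.rpow_one]

lemma Bd.div_le {W : WeierstrassCurve ℚ} {N : ℝ} (h : Bd W N) {r δ : ℕ}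
    (hr : r ≤ D.rk W) (hd : D.HasDiv W δ) : (2 : ℝ) ^ (r + δ) ≤ N := by
  obtain ⟨f, hf⟩ := hd
  refine le_trans ?_ h.2
  rw [pow_add]
  have h1 : (2 : ℝ) ^ δ ≤ (Nat.card {x : Pool.Agent.W262.SH.Sha W // x + x = 0} : ℝ) := by
    exact_mod_cast card_pruf h.1 δ ((D.eSha W).toAddMonoidHom.comp f)
      ((D.eSha W).injective.comp hf)
  exact mul_le_mul (pow_le_pow_right₀ (by norm_num) hr) h1 (by positivity) (by positivity)

/-- from a sum over a family to the theorem -/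
lemma family {ι : Type} (S : Finset ι) (W : ι → WeierstrassCurve ℚ) (N : ι → ℝ) (M : ℝ) (s : ℕ)
    (hW : ∀ i ∈ S, Bd (W i) (N i)) (hS : ∑ i ∈ S, N i ^ s ≤ M) :
    (∀ i ∈ S, ∀ k : ℕ, Finite (D.ShaTor (W i) (2 ^ k))) ∧
    (∀ k : ℕ, 1 ≤ k → ∑ i ∈ S, wt (W i) k ^ s ≤ M) ∧
    ∀ r δ : ℕ, ((S.filter (fun i => r ≤ D.rk (W i) ∧ D.HasDiv (W i) δ)).card : ℝ) ≤
        M / 2 ^ (s * (r + δ)) := by
  refine ⟨fun i hi k => (hW i hi).fin k, fun k hk => ?_, fun r δ => ?_⟩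
  · refine le_trans (Finset.sum_le_sum fun i hi => ?_) hS
    exact pow_le_pow_left₀ (wt_nonneg _ _) ((hW i hi).wt_le hk) s
  · rw [le_div_iff₀ (by positivity)]
    refine le_trans ?_ hS
    refine le_trans ?_ (Finset.sum_le_sum_of_subset_of_nonneg (Finset.filter_subset (fun i =>
      r ≤ D.rk (W i) ∧ D.HasDiv (W i) δ) S)
      (fun i hi _ => pow_nonneg (le_trans (by positivity) (hW i hi).2) s))
    rw [← nsmul_eq_mul]
    refine Finset.card_nsmul_le_sum _ _ _ fun i hi => ?_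
    obtain ⟨hi1, hi2, hf⟩ := Finset.mem_filter.1 hi
    rw [mul_comm s, pow_mul]
    exact pow_le_pow_left₀ (by positivity) ((hW i hi1).div_le hi2 hf) s

/-- `Bd` for the curve `y² = x³ + A x + B` -/
lemma bd_selR {A B e1 e2 e3 : ℤ} (hD : 4 * A ^ 3 + 27 * B ^ 2 ≠ 0)
    (h : ∀ x : ℤ, x ^ 3 + A * x + B = (x - e1) * (x - e2) * (x - e3))
    (hS : (SelR A B).Finite) : Bd (Sh A B) ((SelR A B).ncard : ℝ) := by
  obtain ⟨h1, h2⟩ := sha_selR hD h hS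
  exact ⟨h1, by exact_mod_cast h2⟩

end Pool.Agent.TH841.SH
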